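import Pool.Agent.TH627.UT.Coll

set_option autoImplicit false

open Set Topology Filter Ordinal Order TopologicalSpace

universe u v

namespace Pool.Agent.TH627.UT

theorem exists_finite_basis_cover {Z : Type u} [TopologicalSpace Z] [T2Space Z] [NormalSpace Z]
    [SecondCountableTopology Z] {K O : Set Z} (hK : IsCompact K) (hO : IsOpen O) (hKO : K ⊆ O) :
    ∃ t : Set (Set Z), t.Finite ∧ t ⊆ countableBasis Z ∧ K ⊆ ⋃₀ t ∧ closure (⋃₀ t) ⊆ O := by
  obtain ⟨O1, hO1, hKO1, hcl⟩ := normal_exists_closure_subset hK.isClosed hO hKO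
  obtain ⟨t, htb, htf, hKt⟩ := hK.elim_finite_subcover_image
    (b := {U : Set Z | U ∈ countableBasis Z ∧ U ⊆ O1}) (c := fun U => U)
    (fun U hU => isOpen_of_mem_countableBasis hU.1) (by
      intro x hx
      obtain ⟨U, hU, hxU, hUO⟩ := (isBasis_countableBasis Z).exists_subset_of_mem_open (hKO1 hx) hO1
      exact mem_iUnion₂.2 ⟨U, ⟨hU, hUO⟩, hxU⟩)
  refine ⟨t, htf, fun U hU => (htb hU).1, ?_, ?_⟩
  · rwa [sUnion_eq_biUnion]
  · exact (closure_mono (sUnion_subset fun U hU => (htb hU).2)).trans hcl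

theorem exists_sep (Z : Type u) [TopologicalSpace Z] [T2Space Z] [NormalSpace Z]
    [SecondCountableTopology Z] : ∃ w : ℕ → C(Z, ℝ), (∀ q z, w q z ∈ Icc (0 : ℝ) 1) ∧
      ∀ K L : Set Z, IsCompact K → IsCompact L → Disjoint K L →
        ∃ q, (∀ z ∈ K, w q z = 0) ∧ (∀ z ∈ L, w q z = 1) := by
  classical
  let ι := {t : Set (Set Z) // t.Finite ∧ t ⊆ countableBasis Z}
  have hι : Countable ι := by
    have := Set.countable_ofPred_finite_subset (countable_countableBasis Z)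
    exact this.to_subtype
  have hne : Nonempty ι := ⟨⟨∅, finite_empty, empty_subset _⟩⟩
  have hex : ∀ p : ι × ι, ∃ f : C(Z, ℝ), (∀ z, f z ∈ Icc (0 : ℝ) 1) ∧
      (Disjoint (closure (⋃₀ p.1.1)) (closure (⋃₀ p.2.1)) →
        (∀ z ∈ ⋃₀ p.1.1, f z = 0) ∧ (∀ z ∈ ⋃₀ p.2.1, f z = 1)) := by
    intro p
    by_cases hd : Disjoint (closure (⋃₀ p.1.1)) (closure (⋃₀ p.2.1))
    · obtain ⟨f, h0, h1, h01⟩ := exists_continuous_zero_one_of_isClosed isClosed_closure
        isClosed_closure hd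
      exact ⟨f, h01, fun _ => ⟨fun z hz => h0 (subset_closure hz), fun z hz => h1 (subset_closure hz)⟩⟩
    · exact ⟨0, fun z => by simp, fun h => absurd h hd⟩
  choose f hf01 hf using hex
  obtain ⟨e, he⟩ := exists_surjective_nat (ι × ι)
  refine ⟨fun q => f (e q), fun q z => hf01 _ z, ?_⟩
  intro K L hK hL hKL
  obtain ⟨t, htf, htb, hKt, htcl⟩ := exists_finite_basis_cover hK hL.isClosed.isOpen_compl
    (disjoint_left.1 hKL)
  obtain ⟨t', htf', htb', hLt', htcl'⟩ := exists_finite_basis_cover hL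
    (isClosed_closure (s := ⋃₀ t)).isOpen_compl (fun z hz hz' => htcl hz' hz)
  obtain ⟨q, hq⟩ := he (⟨t, htf, htb⟩, ⟨t', htf', htb'⟩)
  refine ⟨q, ?_⟩
  have hd : Disjoint (closure (⋃₀ t)) (closure (⋃₀ t')) := by
    rw [Set.disjoint_left]
    intro z hz hz'
    exact htcl' hz' hz
  obtain ⟨h0, h1⟩ := hf (⟨t, htf, htb⟩, ⟨t', htf', htb'⟩) hd
  rw [← hq] at h0 h1
  exact ⟨fun z hz => h0 z (by rw [hq]; exact hKt hz), fun z hz => h1 z (by rw [hq]; exact hLt' hz)⟩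

theorem diag {Q : Type} [Countable Q] [Nonempty Q] (q : (ℕ → ℕ) → Q) :
    ∃ q0 j, ∀ m, ∃ d, q d = q0 ∧ m ≤ d j := by
  by_contra hcon
  push Not at hcon
  choose m hm using hcon
  obtain ⟨e, he⟩ := exists_surjective_nat Q
  obtain ⟨j, hj⟩ := he (q fun j => m (e j) j)
  exact lt_irrefl _ (hm (e j) j (fun j => m (e j) j) hj.symm)

theorem forall₂_ofFn {α β : Type*} {s : ℕ} {R : α → β → Prop} {f : Fin s → α} {g : Fin s → β}
    (h : ∀ i, R (f i) (g i)) : List.Forall₂ R (List.ofFn f) (List.ofFn g) := by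
  rw [List.forall₂_iff_get]
  refine ⟨by simp, fun i h1 h2 => ?_⟩
  simp only [List.get_eq_getElem, List.getElem_ofFn]
  exact h _

theorem lower {lam : Ordinal.{0}} (hl : IsSuccLimit lam) (n : ℕ) {b : ℕ → Ordinal.{0}}
    (hbm : Monotone b) (hb : ∀ γ < lam, ∃ i, γ < b i) (𝔉 : Fam) (hE : ∀ i, EB (b i) (𝔉.Φ i))
    {Z : Type u} [TopologicalSpace Z] [T2Space Z] [NormalSpace Z] [SecondCountableTopology Z]
    (hZ : Dle (lam + n) (univ : Set Z)) (e : ∀ d : ℕ → ℕ, (𝔉.sd (n + 1) d).X → Z)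
    (hec : ∀ d, Continuous (e d)) (hei : ∀ d, Function.Injective (e d)) : False := by
  obtain ⟨w, hw01, hwsep⟩ := exists_sep Z
  -- choose separating functions for the faces
  have hface : ∀ (d : ℕ → ℕ) (i : Fin (n + 1)), ∃ q,
      (∀ x : (𝔉.sd (n + 1) d).X, (𝔉.sd (n + 1) d).π x i = 0 → w q (e d x) = 0) ∧
      (∀ x : (𝔉.sd (n + 1) d).X, (𝔉.sd (n + 1) d).π x i = 1 → w q (e d x) = 1) := by
    intro d i
    have hc : Continuous fun x : (𝔉.sd (n + 1) d).X => (𝔉.sd (n + 1) d).π x i :=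
      (continuous_apply i).comp (𝔉.sd (n + 1) d).continuous_π
    have h0 : IsClosed {x : (𝔉.sd (n + 1) d).X | (𝔉.sd (n + 1) d).π x i = 0} :=
      isClosed_eq hc continuous_const
    have h1 : IsClosed {x : (𝔉.sd (n + 1) d).X | (𝔉.sd (n + 1) d).π x i = 1} :=
      isClosed_eq hc continuous_const
    obtain ⟨q, hq0, hq1⟩ := hwsep _ _ (h0.isCompact.image (hec d)) (h1.isCompact.image (hec d)) (by
      rw [Set.disjoint_left]
      rintro z ⟨x, hx, rfl⟩ ⟨y, hy, hyx⟩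
      have := hei d hyx
      subst this
      have h1 : (𝔉.sd (n + 1) d).π y i = 0 := hx
      have h2 : (𝔉.sd (n + 1) d).π y i = 1 := hy
      rw [h1] at h2
      exact zero_ne_one h2)
    exact ⟨q, fun x hx => hq0 _ ⟨x, hx, rfl⟩, fun x hx => hq1 _ ⟨x, hx, rfl⟩⟩
  choose qd hqd0 hqd1 using hface
  obtain ⟨q0, j, hdiag⟩ := diag qd
  choose dm hdmq hdmj using hdiag
  -- values at the vertices
  have _ : Fintype (V (n + 1) j) := (finite_V (n + 1) j).fintype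
  have hneV : Nonempty (V (n + 1) j) := ⟨⟨_, zero_mem_V (n + 1) j⟩⟩
  let u : ℕ → (V (n + 1) j → unitInterval) := fun m v =>
    ⟨w (q0 0) (e (dm m) ((𝔉.sd (n + 1) (dm m)).f j (v.1, Classical.arbitrary (𝔉.Φ (dm m j))))),
      hw01 _ _⟩
  obtain ⟨us, ψ, hψ, hus⟩ := CompactSpace.tendsto_subseq u
  obtain ⟨τ, hτ, hτu⟩ := (Ioo_infinite (zero_lt_one' ℝ)).exists_notMem_finite
    (Set.finite_range fun v : V (n + 1) j => (us v : ℝ))
  obtain ⟨v0, hv0⟩ := Finite.exists_min fun v : V (n + 1) j => |(us v : ℝ) - τ|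
  have hδ : 0 < |(us v0 : ℝ) - τ| := by
    rw [abs_pos, sub_ne_zero]
    intro h
    exact hτu ⟨v0, h⟩
  obtain ⟨η, hη0, hητ, hη1, hηδ⟩ : ∃ η : ℝ, 0 < η ∧ η ≤ τ ∧ η ≤ 1 - τ ∧
      2 * η ≤ |(us v0 : ℝ) - τ| := by
    refine ⟨min (|(us v0 : ℝ) - τ| / 2) (min τ (1 - τ)), ?_, ?_, ?_, ?_⟩
    · exact lt_min (half_pos hδ) (lt_min hτ.1 (sub_pos.2 hτ.2))
    · exact (min_le_right _ _).trans (min_le_left _ _)
    · exact (min_le_right _ _).trans (min_le_right _ _)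
    · have := min_le_left (|(us v0 : ℝ) - τ| / 2) (min τ (1 - τ))
      linarith
  -- the tower
  let l : List (Set Z × Set Z) := List.ofFn fun i : Fin (n + 1) =>
    ({z | w (q0 i) z ≤ τ - η}, {z | τ + η ≤ w (q0 i) z})
  obtain ⟨T, hT, hTl⟩ := tow_exists (lam := lam) n (l := l) (S := univ) (by simp [l]) isClosed_univ
    (by
      intro p hp
      rw [List.mem_ofFn] at hp
      obtain ⟨i, rfl⟩ := hp
      refine ⟨isClosed_le (w (q0 i)).continuous continuous_const,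
        isClosed_le continuous_const (w (q0 i)).continuous, ?_⟩
      rw [Set.disjoint_left]
      intro z h1 h2
      have h1' : w (q0 i) z ≤ τ - η := h1
      have h2' : τ + η ≤ w (q0 i) z := h2
      linarith) hZ
  have hTc : IsClosed T := hT.isClosed isClosed_univ
  obtain ⟨β, hβ, hTβ⟩ : ∃ β, β < lam ∧ Dle β T := by
    rcases hTl with h | ⟨β, hβ, h⟩
    · exact ⟨0, hl.bot_lt, Dlt.dle (Or.inl h)⟩
    · exact ⟨β, hβ, h⟩
  obtain ⟨m0, hm0⟩ := hb β hβ
  -- choose a good index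
  obtain ⟨k, hk0, hk⟩ : ∃ k, m0 ≤ k ∧ dist (u (ψ k)) us < η := by
    have h1 := (Metric.tendsto_atTop.1 hus) η hη0
    obtain ⟨N, hN⟩ := h1
    exact ⟨max m0 N, le_max_left _ _, hN _ (le_max_right _ _)⟩
  set m := ψ k with hm
  have hmm0 : m0 ≤ m := hk0.trans (hψ.id_le k)
  let D := 𝔉.sd (n + 1) (dm m)
  let g : (Fin (n + 1) → unitInterval) × 𝔉.Φ (dm m j) → Z := fun x => e (dm m) (D.f j x)
  have hg : Continuous g := (hec (dm m)).comp (D.continuous_f j)
  have hTd := hT.disjoint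
  have hTv : ∀ x, g x ∈ T → x.1 ∉ V (n + 1) j := by
    intro x hxT hxV
    have h1 := hTd ({z | w (q0 0) z ≤ τ - η}, {z | τ + η ≤ w (q0 0) z}) (by
      rw [List.mem_ofFn]
      exact ⟨0, rfl⟩)
    have h2 : ¬ w (q0 0) (g x) ≤ τ - η := fun h => (Set.disjoint_left.1 h1.1) hxT h
    have h3 : ¬ τ + η ≤ w (q0 0) (g x) := fun h => (Set.disjoint_left.1 h1.2) hxT h
    have h4 : dist (u m ⟨x.1, hxV⟩) (us ⟨x.1, hxV⟩) < η :=
      (dist_le_pi_dist (u m) us ⟨x.1, hxV⟩).trans_lt hk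
    have h5 : ((u m ⟨x.1, hxV⟩ : unitInterval) : ℝ) = w (q0 0) (g x) := by
      show w (q0 0) (e (dm m) (D.f j (x.1, Classical.arbitrary (𝔉.Φ (dm m j))))) = _
      have : D.f j (x.1, Classical.arbitrary (𝔉.Φ (dm m j))) = D.f j x :=
        𝔉.f_vertex (dm m) (w := (x.1, Classical.arbitrary (𝔉.Φ (dm m j)))) (w' := x) hxV rfl
      rw [this]
    rw [Subtype.dist_eq, Real.dist_eq, h5] at h4
    have h6 := hv0 ⟨x.1, hxV⟩
    have h7 : |w (q0 0) (g x) - τ| < η := by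
      rw [abs_lt]; push Not at h2 h3; constructor <;> linarith
    have h8 : |(us ⟨x.1, hxV⟩ : ℝ) - τ| ≤ |w (q0 0) (g x) - (us ⟨x.1, hxV⟩ : ℝ)| +
        |w (q0 0) (g x) - τ| := by
      have := abs_sub_le (us ⟨x.1, hxV⟩ : ℝ) (w (q0 0) (g x)) τ
      rwa [abs_sub_comm (us ⟨x.1, hxV⟩ : ℝ) (w (q0 0) (g x))] at this
    change |(us v0 : ℝ) - τ| ≤ |(us ⟨x.1, hxV⟩ : ℝ) - τ| at h6
    linarith
  have hginj : InjOn g (g ⁻¹' T) := by
    intro x hx y _ hxy
    refine D.f_injOn j (hei (dm m) hxy) ?_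
    intro h0
    exact hTv x hx (vf_eq_zero.1 h0)
  have h1 : Dle β (g ⁻¹' T) := hTβ.preimage g hg hTc hginj
  have h2 := (hT.preimage hg).mono_pairs (l' := faces (fun (i : Fin (n + 1))
      (x : (Fin (n + 1) → unitInterval) × 𝔉.Φ (dm m j)) => x.1 i)) (by
    unfold faces
    simp only [l, List.map_ofFn]
    refine forall₂_ofFn fun i => ⟨?_, ?_⟩
    · intro x hx
      show w (q0 i) (g x) ≤ τ - η
      have := hqd0 (dm m) i (D.f j x) hx
      rw [hdmq] at this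
      show w (q0 i) (e (dm m) (D.f j x)) ≤ τ - η
      rw [this]
      linarith
    · intro x hx
      show τ + η ≤ w (q0 i) (g x)
      have := hqd1 (dm m) i (D.f j x) hx
      rw [hdmq] at this
      show τ + η ≤ w (q0 i) (e (dm m) (D.f j x))
      rw [this]
      linarith)
  rw [preimage_univ] at h2
  exact (hE (dm m j) (n + 1) (g ⁻¹' T) h2).2 β
    (hm0.trans_le (hbm (hmm0.trans (hdmj m)))) h1

/-- Main theorem in partition form. -/
theorem main {lam : Ordinal.{0}} (hl : IsSuccLimit lam) (h1 : lam < ω₁) (n : ℕ)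
    {Z : Type u} [TopologicalSpace Z] [T2Space Z] [NormalSpace Z] [SecondCountableTopology Z]
    (hZ : Dle (lam + n) (univ : Set Z)) :
    ∃ (X : Type) (_ : MetricSpace X), CompactSpace X ∧ Dle (lam + n) (univ : Set X) ∧
      ∀ e : X → Z, Continuous e → ¬ Function.Injective e := by
  obtain ⟨b, hb, hbm, hbc⟩ := exists_monotone_cofinal hl h1
  obtain ⟨𝔉, hU, hE⟩ := exists_fam (b := b) (fun i => (hb i).trans h1)
  by_contra hcon
  push Not at hcon
  have := fun d : ℕ → ℕ => hcon (𝔉.sd (n + 1) d).X inferInstance inferInstance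
    (𝔉.upper d hl hb hU n)
  choose e hec hei using this
  exact lower hl n hbm hbc 𝔉 hE hZ e hec hei

end Pool.Agent.TH627.UT
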