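import Mathlib

set_option autoImplicit false

open Set Topology

universe u v

namespace Pool.Agent.TH627.UT

/-- `Dle α S`: the closed set `S` has large transfinite dimension at most `α`, in partition form. -/
def Dle {X : Type u} [TopologicalSpace X] (α : Ordinal.{0}) (S : Set X) : Prop :=
  ∀ A C : Set X, IsClosed A → IsClosed C → A ⊆ S → C ⊆ S → Disjoint A C →
    ∃ P Q : Set X, IsClosed P ∧ IsClosed Q ∧ P ∪ Q = S ∧ Disjoint A Q ∧ Disjoint C P ∧
      (P ∩ Q = ∅ ∨ ∃ β : Ordinal.{0}, ∃ _ : β < α, Dle β (P ∩ Q))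
termination_by α

/-- `Dlt α S`: large transfinite dimension of `S` less than `α` (or `S` empty). -/
def Dlt {X : Type u} [TopologicalSpace X] (α : Ordinal.{0}) (S : Set X) : Prop :=
  S = ∅ ∨ ∃ β : Ordinal.{0}, β < α ∧ Dle β S

variable {X : Type u} [TopologicalSpace X]

theorem dle_iff {α : Ordinal.{0}} {S : Set X} : Dle α S ↔
    ∀ A C : Set X, IsClosed A → IsClosed C → A ⊆ S → C ⊆ S → Disjoint A C →
    ∃ P Q : Set X, IsClosed P ∧ IsClosed Q ∧ P ∪ Q = S ∧ Disjoint A Q ∧ Disjoint C P ∧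
      Dlt α (P ∩ Q) := by
  rw [Dle]
  simp only [Dlt, exists_prop]

theorem Dle.mono_ord {α β : Ordinal.{0}} {S : Set X} (h : Dle α S) (hab : α ≤ β) : Dle β S := by
  rw [dle_iff] at h ⊢
  intro A C hA hC hAS hCS hAC
  obtain ⟨P, Q, hP, hQ, hPQ, hAQ, hCP, hd⟩ := h A C hA hC hAS hCS hAC
  refine ⟨P, Q, hP, hQ, hPQ, hAQ, hCP, ?_⟩
  rcases hd with hd | ⟨γ, hγ, hd⟩
  · exact Or.inl hd
  · exact Or.inr ⟨γ, hγ.trans_le hab, hd⟩

theorem Dlt.mono_ord {α β : Ordinal.{0}} {S : Set X} (h : Dlt α S) (hab : α ≤ β) : Dlt β S := by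
  rcases h with h | ⟨γ, hγ, h⟩
  · exact Or.inl h
  · exact Or.inr ⟨γ, hγ.trans_le hab, h⟩

theorem Dle.mono {α : Ordinal.{0}} : ∀ {S T : Set X}, Dle α S → IsClosed T → T ⊆ S → Dle α T := by
  induction α using WellFoundedLT.induction with
  | ind α ih =>
  intro S T h hT hTS
  rw [dle_iff] at h ⊢
  intro A C hA hC hAS hCS hAC
  obtain ⟨P, Q, hP, hQ, hPQ, hAQ, hCP, hd⟩ := h A C hA hC (hAS.trans hTS) (hCS.trans hTS) hAC
  refine ⟨P ∩ T, Q ∩ T, hP.inter hT, hQ.inter hT, ?_, hAQ.mono_right inter_subset_left,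
    hCP.mono_right inter_subset_left, ?_⟩
  · rw [← union_inter_distrib_right, hPQ, inter_eq_right]
    exact hTS
  · have e : P ∩ T ∩ (Q ∩ T) = P ∩ Q ∩ T := by
      ext x; simp only [mem_inter_iff]; tauto
    rw [e]
    rcases hd with hd | ⟨γ, hγ, hd⟩
    · left; rw [hd, empty_inter]
    · exact Or.inr ⟨γ, hγ, ih γ hγ hd ((hP.inter hQ).inter hT) inter_subset_left⟩

theorem Dlt.mono {α : Ordinal.{0}} {S T : Set X} (h : Dlt α S) (hT : IsClosed T) (hTS : T ⊆ S) :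
    Dlt α T := by
  rcases h with h | ⟨γ, hγ, h⟩
  · left
    rw [h] at hTS
    exact subset_empty_iff.1 hTS
  · exact Or.inr ⟨γ, hγ, h.mono hT hTS⟩

theorem Dlt.dle {α : Ordinal.{0}} {S : Set X} (h : Dlt α S) : Dle α S := by
  rcases h with h | ⟨γ, hγ, h⟩
  · rw [dle_iff]
    intro A C hA hC hAS hCS hAC
    subst h
    refine ⟨∅, ∅, isClosed_empty, isClosed_empty, by simp, by simp, by simp, ?_⟩
    left; simp
  · exact h.mono_ord hγ.le

/-- Sums of relatively clopen pieces. -/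
theorem Dle.union {α : Ordinal.{0}} : ∀ {S : Set X} {O : Set X}, IsClopen O →
    Dle α (S ∩ O) → Dle α (S ∩ Oᶜ) → Dle α S := by
  induction α using WellFoundedLT.induction with
  | ind α ih =>
  intro S O hO h1 h2
  rw [dle_iff] at h1 h2 ⊢
  intro A C hA hC hAS hCS hAC
  obtain ⟨P, Q, hP, hQ, hPQ, hAQ, hCP, hd⟩ := h1 (A ∩ O) (C ∩ O) (hA.inter hO.isClosed)
    (hC.inter hO.isClosed) (inter_subset_inter_left _ hAS) (inter_subset_inter_left _ hCS)
    (hAC.mono inter_subset_left inter_subset_left)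
  obtain ⟨P', Q', hP', hQ', hPQ', hAQ', hCP', hd'⟩ := h2 (A ∩ Oᶜ) (C ∩ Oᶜ)
    (hA.inter hO.compl.isClosed)
    (hC.inter hO.compl.isClosed) (inter_subset_inter_left _ hAS) (inter_subset_inter_left _ hCS)
    (hAC.mono inter_subset_left inter_subset_left)
  have sP : P ⊆ O := fun x hx => ((hPQ ▸ (Or.inl hx : x ∈ P ∪ Q)) : x ∈ S ∩ O).2
  have sQ : Q ⊆ O := fun x hx => ((hPQ ▸ (Or.inr hx : x ∈ P ∪ Q)) : x ∈ S ∩ O).2
  have sP' : P' ⊆ Oᶜ := fun x hx => ((hPQ' ▸ (Or.inl hx : x ∈ P' ∪ Q')) : x ∈ S ∩ Oᶜ).2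
  have sQ' : Q' ⊆ Oᶜ := fun x hx => ((hPQ' ▸ (Or.inr hx : x ∈ P' ∪ Q')) : x ∈ S ∩ Oᶜ).2
  refine ⟨P ∪ P', Q ∪ Q', hP.union hP', hQ.union hQ', ?_, ?_, ?_, ?_⟩
  · rw [union_union_union_comm, hPQ, hPQ', ← inter_union_distrib_left, union_compl_self, inter_univ]
  · rw [Set.disjoint_left] at hAQ hAQ' ⊢
    rintro x hxA (hx | hx)
    · exact hAQ ⟨hxA, sQ hx⟩ hx
    · exact hAQ' ⟨hxA, sQ' hx⟩ hx
  · rw [Set.disjoint_left] at hCP hCP' ⊢
    rintro x hxA (hx | hx)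
    · exact hCP ⟨hxA, sP hx⟩ hx
    · exact hCP' ⟨hxA, sP' hx⟩ hx
  · set T : Set X := (P ∪ P') ∩ (Q ∪ Q') with hT
    have e1 : T ∩ O = P ∩ Q := by
      ext x
      constructor
      · rintro ⟨⟨h1 | h1, h2 | h2⟩, h3⟩
        · exact ⟨h1, h2⟩
        · exact absurd h3 (sQ' h2)
        · exact absurd h3 (sP' h1)
        · exact absurd h3 (sQ' h2)
      · rintro ⟨h1, h2⟩
        exact ⟨⟨Or.inl h1, Or.inl h2⟩, sP h1⟩
    have e2 : T ∩ Oᶜ = P' ∩ Q' := by
      ext x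
      constructor
      · rintro ⟨⟨h1 | h1, h2 | h2⟩, h3⟩
        · exact absurd (sP h1) h3
        · exact absurd (sP h1) h3
        · exact absurd (sQ h2) h3
        · exact ⟨h1, h2⟩
      · rintro ⟨h1, h2⟩
        exact ⟨⟨Or.inr h1, Or.inr h2⟩, sP' h1⟩
    have e0 : T = T ∩ O ∪ T ∩ Oᶜ := by rw [← inter_union_distrib_left, union_compl_self, inter_univ]
    by_cases hTe : T = ∅
    · exact Or.inl hTe
    right
    have key : ∃ β : Ordinal.{0}, β < α ∧ Dle β (T ∩ O) ∧ Dle β (T ∩ Oᶜ) := by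
      rw [e1, e2]
      rcases hd with hd | ⟨γ, hγ, hd⟩ <;> rcases hd' with hd' | ⟨γ', hγ', hd'⟩
      · exfalso
        apply hTe
        rw [e0, e1, e2, hd, hd', union_empty]
      · exact ⟨γ', hγ', Dlt.dle (Or.inl hd), hd'⟩
      · exact ⟨γ, hγ, hd, Dlt.dle (Or.inl hd')⟩
      · exact ⟨max γ γ', max_lt hγ hγ', hd.mono_ord (le_max_left _ _),
          hd'.mono_ord (le_max_right _ _)⟩
    obtain ⟨β, hβ, k1, k2⟩ := key
    exact ⟨β, hβ, ih β hβ hO k1 k2⟩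

theorem Dlt.union {α : Ordinal.{0}} {S O : Set X} (hO : IsClopen O)
    (h1 : Dlt α (S ∩ O)) (h2 : Dlt α (S ∩ Oᶜ)) : Dlt α S := by
  by_cases hTe : S = ∅
  · exact Or.inl hTe
  have e0 : S = S ∩ O ∪ S ∩ Oᶜ := by rw [← inter_union_distrib_left, union_compl_self, inter_univ]
  right
  have key : ∃ β : Ordinal.{0}, β < α ∧ Dle β (S ∩ O) ∧ Dle β (S ∩ Oᶜ) := by
    rcases h1 with hd | ⟨γ, hγ, hd⟩ <;> rcases h2 with hd' | ⟨γ', hγ', hd'⟩
    · exfalso
      apply hTe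
      rw [e0, hd, hd', union_empty]
    · exact ⟨γ', hγ', Dlt.dle (Or.inl hd), hd'⟩
    · exact ⟨γ, hγ, hd, Dlt.dle (Or.inl hd')⟩
    · exact ⟨max γ γ', max_lt hγ hγ', hd.mono_ord (le_max_left _ _),
        hd'.mono_ord (le_max_right _ _)⟩
  obtain ⟨β, hβ, k1, k2⟩ := key
  exact ⟨β, hβ, Dle.union hO k1 k2⟩

/-- Images under maps injective on a compact set. -/
theorem dle_image {W : Type v} [TopologicalSpace W] [CompactSpace W] [T2Space X]
    (h : W → X) (hc : Continuous h) {β : Ordinal.{0}} :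
    ∀ {T : Set W}, IsClosed T → InjOn h T → (Dle β T ↔ Dle β (h '' T)) := by
  induction β using WellFoundedLT.induction with
  | ind β ih =>
  intro T hT hinj
  have hcl : ∀ B : Set W, IsClosed B → IsClosed (h '' B) := fun B hB =>
    (hB.isCompact.image hc).isClosed
  constructor
  · intro hD
    rw [dle_iff] at hD ⊢
    intro A C hA hC hAS hCS hAC
    obtain ⟨P, Q, hP, hQ, hPQ, hAQ, hCP, hd⟩ := hD (h ⁻¹' A ∩ T) (h ⁻¹' C ∩ T)
      ((hA.preimage hc).inter hT) ((hC.preimage hc).inter hT) inter_subset_right inter_subset_right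
      ((hAC.preimage h).mono inter_subset_left inter_subset_left)
    have sP : P ⊆ T := hPQ ▸ subset_union_left
    have sQ : Q ⊆ T := hPQ ▸ subset_union_right
    refine ⟨h '' P, h '' Q, hcl P hP, hcl Q hQ, by rw [← image_union, hPQ], ?_, ?_, ?_⟩
    · rw [Set.disjoint_left] at hAQ ⊢
      rintro x hxA ⟨w, hw, rfl⟩
      exact hAQ ⟨hxA, sQ hw⟩ hw
    · rw [Set.disjoint_left] at hCP ⊢
      rintro x hxA ⟨w, hw, rfl⟩
      exact hCP ⟨hxA, sP hw⟩ hw
    · rw [← hinj.image_inter sP sQ]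
      rcases hd with hd | ⟨γ, hγ, hd⟩
      · left; rw [hd, image_empty]
      · exact Or.inr ⟨γ, hγ, (ih γ hγ (hP.inter hQ)
          (hinj.mono (inter_subset_left.trans sP))).1 hd⟩
  · intro hD
    rw [dle_iff] at hD ⊢
    intro A C hA hC hAS hCS hAC
    obtain ⟨P, Q, hP, hQ, hPQ, hAQ, hCP, hd⟩ := hD (h '' A) (h '' C)
      (hcl A hA) (hcl C hC) (image_mono hAS) (image_mono hCS) (by
        rw [Set.disjoint_left] at hAC ⊢
        rintro x ⟨a, ha, rfl⟩ ⟨c, hc', hac⟩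
        have := hinj (hCS hc') (hAS ha) hac
        exact hAC ha (this ▸ hc'))
    refine ⟨h ⁻¹' P ∩ T, h ⁻¹' Q ∩ T, (hP.preimage hc).inter hT, (hQ.preimage hc).inter hT,
      ?_, ?_, ?_, ?_⟩
    · rw [← union_inter_distrib_right, ← preimage_union, hPQ, inter_eq_right]
      exact subset_preimage_image h T
    · rw [Set.disjoint_left] at hAQ ⊢
      intro x hxA hx
      exact hAQ ⟨x, hxA, rfl⟩ hx.1
    · rw [Set.disjoint_left] at hCP ⊢
      intro x hxA hx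
      exact hCP ⟨x, hxA, rfl⟩ hx.1
    · have hcl2 : IsClosed (h ⁻¹' P ∩ T ∩ (h ⁻¹' Q ∩ T)) :=
        ((hP.preimage hc).inter hT).inter ((hQ.preimage hc).inter hT)
      have himg : h '' (h ⁻¹' P ∩ T ∩ (h ⁻¹' Q ∩ T)) ⊆ P ∩ Q := by
        rintro x ⟨w, ⟨⟨h1, _⟩, ⟨h2, _⟩⟩, rfl⟩
        exact ⟨h1, h2⟩
      rcases hd with hd | ⟨γ, hγ, hd⟩
      · left
        rw [hd] at himg
        exact image_eq_empty.1 (subset_empty_iff.1 himg)
      · exact Or.inr ⟨γ, hγ, (ih γ hγ hcl2 (hinj.mono (inter_subset_left.trans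
          inter_subset_right))).2 (hd.mono (hcl _ hcl2) himg)⟩

/-- Pulling back along a continuous map injective over `L`. -/
theorem Dle.preimage {W : Type v} [TopologicalSpace W] [CompactSpace W] [T2Space X]
    (g : W → X) (hc : Continuous g) {β : Ordinal.{0}} {L : Set X} (hL : IsClosed L)
    (hinj : InjOn g (g ⁻¹' L)) (h : Dle β L) : Dle β (g ⁻¹' L) := by
  rw [dle_image g hc (hL.preimage hc) hinj]
  exact h.mono ((hL.preimage hc).isCompact.image hc).isClosed (image_preimage_subset g L)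

end Pool.Agent.TH627.UT
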