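import Pool.Agent.TH627.UT.Basic

set_option autoImplicit false

open Set Topology

universe u v

namespace Pool.Agent.TH627.UT

/-- A partition of `S` between `A` and `C` of dimension `< α`. -/
def Part {X : Type u} [TopologicalSpace X] (α : Ordinal.{0}) (S A C : Set X) : Prop :=
  ∃ P Q : Set X, IsClosed P ∧ IsClosed Q ∧ P ∪ Q = S ∧ Disjoint A Q ∧ Disjoint C P ∧
      Dlt α (P ∩ Q)

variable {X : Type u} [TopologicalSpace X]

theorem Dle.part {α : Ordinal.{0}} {S A C : Set X} (h : Dle α S) (hS : IsClosed S)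
    (hA : IsClosed A) (hC : IsClosed C) (hAC : Disjoint A C) : Part α S A C := by
  rw [dle_iff] at h
  obtain ⟨P, Q, hP, hQ, hPQ, hAQ, hCP, hd⟩ := h (A ∩ S) (C ∩ S) (hA.inter hS) (hC.inter hS)
        inter_subset_right inter_subset_right (hAC.mono inter_subset_left inter_subset_left)
  have sP : P ⊆ S := hPQ ▸ subset_union_left
  have sQ : Q ⊆ S := hPQ ▸ subset_union_right
  refine ⟨P, Q, hP, hQ, hPQ, ?_, ?_, hd⟩
  · rw [Set.disjoint_left] at hAQ ⊢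
    exact fun x hx hx' => hAQ ⟨hx, sQ hx'⟩ hx'
  · rw [Set.disjoint_left] at hCP ⊢
    exact fun x hx hx' => hCP ⟨hx, sP hx'⟩ hx'

theorem Part.union {α : Ordinal.{0}} {S A C O : Set X} (hO : IsClopen O)
    (h1 : Part α (S ∩ O) A C) (h2 : Part α (S ∩ Oᶜ) A C) : Part α S A C := by
  obtain ⟨P, Q, hP, hQ, hPQ, hAQ, hCP, hd⟩ := h1
  obtain ⟨P', Q', hP', hQ', hPQ', hAQ', hCP', hd'⟩ := h2
  have sP : P ⊆ O := fun x hx => ((hPQ ▸ (Or.inl hx : x ∈ P ∪ Q)) : x ∈ S ∩ O).2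
  have sQ : Q ⊆ O := fun x hx => ((hPQ ▸ (Or.inr hx : x ∈ P ∪ Q)) : x ∈ S ∩ O).2
  have sP' : P' ⊆ Oᶜ := fun x hx => ((hPQ' ▸ (Or.inl hx : x ∈ P' ∪ Q')) : x ∈ S ∩ Oᶜ).2
  have sQ' : Q' ⊆ Oᶜ := fun x hx => ((hPQ' ▸ (Or.inr hx : x ∈ P' ∪ Q')) : x ∈ S ∩ Oᶜ).2
  refine ⟨P ∪ P', Q ∪ Q', hP.union hP', hQ.union hQ', ?_, ?_, ?_, ?_⟩
  · rw [union_union_union_comm, hPQ, hPQ', ← inter_union_distrib_left, union_compl_self, inter_univ]
  · rw [disjoint_union_right]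
    exact ⟨hAQ, hAQ'⟩
  · rw [disjoint_union_right]
    exact ⟨hCP, hCP'⟩
  · refine Dlt.union hO ?_ ?_
    · have e1 : (P ∪ P') ∩ (Q ∪ Q') ∩ O = P ∩ Q := by
        ext x
        constructor
        · rintro ⟨⟨h1 | h1, h2 | h2⟩, h3⟩
          · exact ⟨h1, h2⟩
          · exact absurd h3 (sQ' h2)
          · exact absurd h3 (sP' h1)
          · exact absurd h3 (sQ' h2)
        · rintro ⟨h1, h2⟩
          exact ⟨⟨Or.inl h1, Or.inl h2⟩, sP h1⟩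
      rw [e1]; exact hd
    · have e2 : (P ∪ P') ∩ (Q ∪ Q') ∩ Oᶜ = P' ∩ Q' := by
        ext x
        constructor
        · rintro ⟨⟨h1 | h1, h2 | h2⟩, h3⟩
          · exact absurd (sP h1) h3
          · exact absurd (sP h1) h3
          · exact absurd (sQ h2) h3
          · exact ⟨h1, h2⟩
        · rintro ⟨h1, h2⟩
          exact ⟨⟨Or.inr h1, Or.inr h2⟩, sP' h1⟩
      rw [e2]; exact hd'

/-- The coordinates at which `x` is not of the form `z / 2 ^ j`. -/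
noncomputable def ni {s : ℕ} (j : ℕ) (x : Fin s → unitInterval) : Finset (Fin s) := by
  classical exact Finset.univ.filter fun i => ∀ z : ℤ, (2 : ℝ) ^ j * (x i : ℝ) ≠ z

theorem mem_ni {s : ℕ} {j : ℕ} {x : Fin s → unitInterval} {i : Fin s} :
    i ∈ ni j x ↔ ∀ z : ℤ, (2 : ℝ) ^ j * (x i : ℝ) ≠ z := by
  classical
  unfold ni
  simp

theorem notMem_ni {s : ℕ} {j : ℕ} {x : Fin s → unitInterval} {i : Fin s} :
    i ∉ ni j x ↔ ∃ z : ℤ, (2 : ℝ) ^ j * (x i : ℝ) = z := by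
  rw [mem_ni]
  push Not
  rfl

theorem ni_anti {s : ℕ} {j j' : ℕ} (h : j ≤ j') (x : Fin s → unitInterval) : ni j' x ⊆ ni j x := by
  intro i hi
  by_contra h'
  rw [notMem_ni] at h'
  obtain ⟨z, hz⟩ := h'
  rw [mem_ni] at hi
  apply hi (2 ^ (j' - j) * z)
  have : (2 : ℝ) ^ j' = 2 ^ (j' - j) * 2 ^ j := by rw [← pow_add, Nat.sub_add_cancel h]
  rw [this, mul_assoc, hz]
  push_cast
  rfl

/-- Closed dyadic cells. -/
def cell {s : ℕ} (j : ℕ) (p : Fin s → Fin (2 ^ j + 1)) (T : Finset (Fin s)) :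
    Set (Fin s → unitInterval) :=
  {x | ∀ i, (((p i : ℕ) : ℝ) ≤ 2 ^ j * (x i : ℝ) ∧ 2 ^ j * (x i : ℝ) ≤ ((p i : ℕ) : ℝ) + 1) ∧
    (i ∉ T → 2 ^ j * (x i : ℝ) = ((p i : ℕ) : ℝ))}

theorem isClosed_cell {s : ℕ} (j : ℕ) (p : Fin s → Fin (2 ^ j + 1)) (T : Finset (Fin s)) :
    IsClosed (cell j p T) := by
  unfold cell
  rw [ofPred_forall]
  refine isClosed_iInter fun i => ?_
  have hc : Continuous fun x : Fin s → unitInterval => (2 : ℝ) ^ j * (x i : ℝ) :=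
    continuous_const.mul (continuous_subtype_val.comp (continuous_apply i))
  have h1 : IsClosed {x : Fin s → unitInterval | ((p i : ℕ) : ℝ) ≤ 2 ^ j * (x i : ℝ)} :=
    isClosed_le continuous_const hc
  have h2 : IsClosed {x : Fin s → unitInterval | 2 ^ j * (x i : ℝ) ≤ ((p i : ℕ) : ℝ) + 1} :=
    isClosed_le hc continuous_const
  have h3 : IsClosed {x : Fin s → unitInterval | i ∉ T → 2 ^ j * (x i : ℝ) = ((p i : ℕ) : ℝ)} := by
    by_cases hi : i ∈ T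
    · simp [hi]
    · simp only [hi, not_false_eq_true, true_imp_iff]
      exact isClosed_eq hc continuous_const
  exact (h1.inter h2).inter h3

theorem ni_subset_of_mem_cell {s : ℕ} {j : ℕ} {p : Fin s → Fin (2 ^ j + 1)} {T : Finset (Fin s)}
    {x : Fin s → unitInterval} (hx : x ∈ cell j p T) : ni j x ⊆ T := by
  intro i hi
  by_contra h'
  rw [mem_ni] at hi
  apply hi ((p i : ℕ) : ℤ)
  rw [(hx i).2 h']
  simp

theorem exists_cell {s : ℕ} (j : ℕ) (x : Fin s → unitInterval) :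
    ∃ p : Fin s → Fin (2 ^ j + 1), x ∈ cell j p (ni j x) := by
  have h2 : (0 : ℝ) < 2 ^ j := by positivity
  have hnn : ∀ i, (0 : ℝ) ≤ 2 ^ j * (x i : ℝ) := fun i => mul_nonneg h2.le (x i).2.1
  have hlt : ∀ i, ⌊(2 : ℝ) ^ j * (x i : ℝ)⌋₊ < 2 ^ j + 1 := by
    intro i
    rw [Nat.lt_succ_iff]
    apply Nat.floor_le_of_le
    push_cast
    calc (2 : ℝ) ^ j * (x i : ℝ) ≤ 2 ^ j * 1 := mul_le_mul_of_nonneg_left (x i).2.2 h2.le
      _ = 2 ^ j := mul_one _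
  refine ⟨fun i => ⟨⌊(2 : ℝ) ^ j * (x i : ℝ)⌋₊, hlt i⟩, fun i => ⟨⟨?_, ?_⟩, ?_⟩⟩
  · exact Nat.floor_le (hnn i)
  · exact (Nat.lt_floor_add_one _).le
  · intro hi
    rw [notMem_ni] at hi
    obtain ⟨z, hz⟩ := hi
    have hz0 : 0 ≤ z := by
      have := hnn i
      rw [hz] at this
      exact_mod_cast this
    obtain ⟨m, rfl⟩ := Int.eq_ofNat_of_zero_le hz0
    show (2 : ℝ) ^ j * (x i : ℝ) = ((⌊(2 : ℝ) ^ j * (x i : ℝ)⌋₊ : ℕ) : ℝ)
    rw [hz]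
    push_cast
    simp

theorem cell_unique {s : ℕ} {j k : ℕ} {p p' : Fin s → Fin (2 ^ j + 1)} {T T' : Finset (Fin s)}
    {x : Fin s → unitInterval} (hx : x ∈ cell j p T) (hx' : x ∈ cell j p' T') (hT : T.card ≤ k)
    (hT' : T'.card ≤ k) (hk : k ≤ (ni j x).card) : p = p' ∧ T = T' := by
  have e1 : ni j x = T := Finset.eq_of_subset_of_card_le (ni_subset_of_mem_cell hx) (hT.trans hk)
  have e2 : ni j x = T' := Finset.eq_of_subset_of_card_le (ni_subset_of_mem_cell hx') (hT'.trans hk)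
  refine ⟨?_, e1.symm.trans e2⟩
  funext i
  apply Fin.ext
  by_cases hi : i ∈ T
  · have hni : i ∈ ni j x := by rw [e1]; exact hi
    rw [mem_ni] at hni
    obtain ⟨⟨a1, a2⟩, _⟩ := hx i
    obtain ⟨⟨b1, b2⟩, _⟩ := hx' i
    have c1 := hni ((p i : ℕ) : ℤ)
    have c2 := hni (((p i : ℕ) : ℤ) + 1)
    have c3 := hni ((p' i : ℕ) : ℤ)
    have c4 := hni (((p' i : ℕ) : ℤ) + 1)
    push_cast at c1 c2 c3 c4
    have d1 := lt_of_le_of_ne a1 c1.symm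
    have d2 := lt_of_le_of_ne a2 c2
    have d3 := lt_of_le_of_ne b1 c3.symm
    have d4 := lt_of_le_of_ne b2 c4
    have f1 : ((p i : ℕ) : ℝ) < ((p' i : ℕ) : ℝ) + 1 := d1.trans d4
    have f2 : ((p' i : ℕ) : ℝ) < ((p i : ℕ) : ℝ) + 1 := d3.trans d2
    have g1 : (p i : ℕ) < (p' i : ℕ) + 1 := by exact_mod_cast f1
    have g2 : (p' i : ℕ) < (p i : ℕ) + 1 := by exact_mod_cast f2
    omega
  · have hi' : i ∉ T' := by rw [← e2, e1]; exact hi
    have h1 := (hx i).2 hi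
    have h2 := (hx' i).2 hi'
    rw [h1] at h2
    exact_mod_cast h2

theorem dist_le_of_mem_cell {s : ℕ} {j : ℕ} {p : Fin s → Fin (2 ^ j + 1)} {T : Finset (Fin s)}
    {x x' : Fin s → unitInterval} (hx : x ∈ cell j p T) (hx' : x' ∈ cell j p T) :
    dist x x' ≤ (1 / 2) ^ j := by
  rw [dist_pi_le_iff (by positivity)]
  intro i
  rw [Subtype.dist_eq, Real.dist_eq]
  obtain ⟨⟨a1, a2⟩, _⟩ := hx i
  obtain ⟨⟨b1, b2⟩, _⟩ := hx' i
  have h2 : (0 : ℝ) < 2 ^ j := by positivity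
  have h3 : (2 : ℝ) ^ j * |(x i : ℝ) - x' i| ≤ 1 := by
    rw [← abs_of_pos h2, ← abs_mul, abs_le]
    constructor <;> linarith
  rw [one_div, inv_pow]
  rw [mul_comm, ← le_div_iff₀ h2, one_div] at h3
  exact h3

end Pool.Agent.TH627.UT
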