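import Pool.Agent.TH627.UT.Exist

set_option autoImplicit false

open Set Topology Filter Ordinal Order TopologicalSpace

universe u v

namespace Pool.Agent.TH627.UT

/-- The grid vertices of level `j`. -/
def V (s j : ℕ) : Set (Fin s → unitInterval) := {x | ni j x = ∅}

theorem finite_V (s j : ℕ) : (V s j).Finite := by
  have h : V s j ⊆ ⋃ p : Fin s → Fin (2 ^ j + 1), cell j p ∅ := by
    intro x hx
    obtain ⟨p, hp⟩ := exists_cell j x
    have hx' : ni j x = ∅ := hx
    rw [hx'] at hp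
    exact mem_iUnion.2 ⟨p, hp⟩
  refine (Set.finite_iUnion fun p => ?_).subset h
  apply Set.Subsingleton.finite
  intro x hx y hy
  funext i
  apply Subtype.ext
  have h1 := (hx i).2 (Finset.notMem_empty i)
  have h2 := (hy i).2 (Finset.notMem_empty i)
  have h3 : (2 : ℝ) ^ j ≠ 0 := by positivity
  exact mul_left_cancel₀ h3 (h1.trans h2.symm)

theorem zero_mem_V (s j : ℕ) : (fun _ => 0) ∈ V s j := by
  show ni j (fun _ : Fin s => (0 : unitInterval)) = ∅
  rw [Finset.eq_empty_iff_forall_notMem]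
  intro i
  rw [notMem_ni]
  exact ⟨0, by simp⟩

theorem vf_bound (s j : ℕ) (x : Fin s → unitInterval) : |Metric.infDist x (V s j)| ≤ 1 := by
  rw [abs_of_nonneg Metric.infDist_nonneg]
  refine (Metric.infDist_le_dist_of_mem (zero_mem_V s j)).trans ?_
  rw [dist_pi_le_iff zero_le_one]
  intro i
  rw [Subtype.dist_eq, Real.dist_eq, abs_le]
  have := (x i).2
  constructor
  · show -1 ≤ (x i : ℝ) - 0
    linarith [this.1]
  · show (x i : ℝ) - 0 ≤ 1
    linarith [this.2]

theorem vf_eq_zero {s j : ℕ} {x : Fin s → unitInterval} :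
    Metric.infDist x (V s j) = 0 ↔ x ∈ V s j :=
  ((finite_V s j).isClosed.mem_iff_infDist_zero ⟨_, zero_mem_V s j⟩).symm

/-- A sequence of compacta with bounded embeddings. -/
structure Fam where
  Φ : ℕ → Type
  inst : ∀ j, TopologicalSpace (Φ j)
  cpt : ∀ j, CompactSpace (Φ j)
  ne : ∀ j, Nonempty (Φ j)
  κ : ∀ j, Φ j → E
  κc : ∀ j, Continuous (κ j)
  κi : ∀ j, Function.Injective (κ j)
  κn : ∀ j y, ‖κ j y‖ ≤ 1

attribute [instance] Fam.inst Fam.cpt Fam.ne

/-- The collapsed spaces. -/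
noncomputable def Fam.sd (𝔉 : Fam) (s : ℕ) (d : ℕ → ℕ) : SD s where
  Φ j := 𝔉.Φ (d j)
  inst j := 𝔉.inst (d j)
  cpt j := 𝔉.cpt (d j)
  κ j y := ((1 / 2 : ℝ) ^ j) • 𝔉.κ (d j) y
  κc j := (continuous_const_smul ((1 / 2 : ℝ) ^ j)).comp (𝔉.κc (d j))
  κi j := by
    intro y y' h
    have h0 : ((1 / 2 : ℝ) ^ j) ≠ 0 := by positivity
    exact 𝔉.κi (d j) (smul_right_injective E h0 h)
  κn j y := by
    rw [norm_smul, Real.norm_eq_abs, abs_of_pos (by positivity)]
    calc (1 / 2 : ℝ) ^ j * ‖𝔉.κ (d j) y‖ ≤ (1 / 2) ^ j * 1 :=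
          mul_le_mul_of_nonneg_left (𝔉.κn (d j) y) (by positivity)
      _ = (1 / 2) ^ j := mul_one _
  φ j x := Metric.infDist x (V s j)
  φc j := Metric.continuous_infDist_pt _
  φb j x := vf_bound s j x

namespace Fam

variable (𝔉 : Fam) {s : ℕ} (d : ℕ → ℕ)

theorem φ_eq (j : ℕ) (x : Fin s → unitInterval) :
    (𝔉.sd s d).φ j x = Metric.infDist x (V s j) := rfl

theorem f_vertex {j : ℕ} {w w' : (Fin s → unitInterval) × 𝔉.Φ (d j)} (h : w.1 ∈ V s j)
    (hw : w.1 = w'.1) : (𝔉.sd s d).f j w = (𝔉.sd s d).f j w' := by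
  apply Subtype.ext
  show (𝔉.sd s d).pt j w = (𝔉.sd s d).pt j w'
  unfold SD.pt
  rw [𝔉.φ_eq, 𝔉.φ_eq, ← hw, vf_eq_zero.2 h, zero_smul, zero_smul]

theorem injOn_vertex (j : ℕ) :
    InjOn (𝔉.sd s d).π {q | q ∈ (𝔉.sd s d).lev j ∧ (𝔉.sd s d).π q ∈ V s j} := by
  rintro q ⟨hq, hqV⟩ q' ⟨hq', _⟩ h
  obtain ⟨w, rfl⟩ := (𝔉.sd s d).lev_subset_range j hq
  obtain ⟨w', rfl⟩ := (𝔉.sd s d).lev_subset_range j hq'
  exact 𝔉.f_vertex d hqV h

/-- The ordinals of the upper bound. -/
noncomputable def rho (lam : Ordinal.{0}) : ℕ → Ordinal.{0}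
  | 0 => 0
  | k + 1 => lam + k

theorem upper {lam : Ordinal.{0}} (hl : IsSuccLimit lam) {b : ℕ → Ordinal.{0}}
    (hb : ∀ i, b i < lam) (h : ∀ i, UB (b i) (𝔉.Φ i)) (n : ℕ) :
    Dle (lam + n) (univ : Set (𝔉.sd (n + 1) d).X) := by
  set D := 𝔉.sd (n + 1) d with hD
  refine lemmaB (Y := D.X) D.π D.continuous_π D.lev D.isClopen_lev
    (fun y y' h h' hy => D.inj_off_lev h h' hy) (rho lam) ?_ ?_ (n + 1) 0 univ isClosed_univ
    (fun i hi => absurd hi (Nat.not_lt_zero i)) (fun y _ => ni_card_le 0 _)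
  · intro k
    cases k with
    | zero =>
      show (0 : Ordinal.{0}) < lam + ((0 : ℕ) : Ordinal.{0})
      rw [Nat.cast_zero, add_zero]
      exact hl.bot_lt
    | succ k =>
      show lam + (k : Ordinal.{0}) < lam + ((k + 1 : ℕ) : Ordinal.{0})
      have : (k : Ordinal.{0}) < ((k + 1 : ℕ) : Ordinal.{0}) := by exact_mod_cast Nat.lt_succ_self k
      exact add_lt_add_right this lam
  · intro j k F hF hFl hFk
    cases k with
    | zero =>
      show Dle (0 : Ordinal.{0}) F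
      have hsub : F ⊆ {q | q ∈ D.lev j ∧ D.π q ∈ V (n + 1) j} := by
        intro q hq
        refine ⟨hFl hq, ?_⟩
        show ni j (D.π q) = ∅
        exact Finset.card_eq_zero.1 (Nat.le_zero.1 (hFk q hq))
      rw [dle_image D.π D.continuous_π hF ((𝔉.injOn_vertex d j).mono hsub)]
      have := dle_cube 0 j (D.π '' F) (hF.isCompact.image D.continuous_π).isClosed (by
        rintro x ⟨q, hq, rfl⟩
        exact hFk q hq)
      rwa [Nat.cast_zero] at this
    | succ k =>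
      show Dle (lam + k) F
      have h1 : Dle (b (d j) + ((n + 1 : ℕ) : Ordinal.{0})) (D.lev j) := by
        have hfin : {q : D.X | q ∈ D.lev j ∧ D.π q ∈ V (n + 1) j}.Finite := by
          refine Set.Finite.of_finite_image ?_ (𝔉.injOn_vertex d j)
          refine (finite_V (n + 1) j).subset ?_
          rintro x ⟨q, hq, rfl⟩
          exact hq.2
        refine Dle.collapse (D.f j) (D.continuous_f j) hfin ?_ (D.isClopen_lev j).isClosed
          (D.lev_subset_range j) ?_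
        · intro w hw w' _ hww
          refine D.f_injOn j hww ?_
          intro h0
          exact hw ⟨D.f_mem_lev j w, vf_eq_zero.1 h0⟩
        · exact (h (d j) (n + 1)).mono ((D.isClopen_lev j).isClosed.preimage (D.continuous_f j))
            (subset_univ _)
      refine (h1.mono hF hFl).mono_ord ?_
      exact (hl.add_natCast_lt (hb (d j)) (n + 1)).le.trans le_self_add

end Fam

theorem exists_fam {b : ℕ → Ordinal.{0}} (hb : ∀ i, b i < ω₁) :
    ∃ 𝔉 : Fam, (∀ i, UB (b i) (𝔉.Φ i)) ∧ ∀ i, EB (b i) (𝔉.Φ i) := by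
  choose Φ t hc hm hn hu he using fun i => exists_phi (b i) (hb i)
  choose κ κc κi κn using fun i =>
    @exists_κ (Φ i) (t i) (hc i) (hm i) 1 one_pos
  exact ⟨⟨Φ, t, hc, hn, κ, κc, κi, κn⟩, hu, he⟩

theorem exists_monotone_cofinal {lam : Ordinal.{0}} (hl : IsSuccLimit lam) (h1 : lam < ω₁) :
    ∃ b : ℕ → Ordinal.{0}, (∀ i, b i < lam) ∧ Monotone b ∧ ∀ γ < lam, ∃ i, γ < b i := by
  obtain ⟨b, hb, hb'⟩ := exists_cofinal hl h1
  let c : ℕ → Ordinal.{0} := fun n => Nat.rec (b 0) (fun k r => max r (b (k + 1))) n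
  have hs : ∀ n, c (n + 1) = max (c n) (b (n + 1)) := fun n => rfl
  refine ⟨c, ?_, monotone_nat_of_le_succ fun n => by rw [hs]; exact le_max_left _ _, ?_⟩
  · intro i
    induction i with
    | zero => exact hb 0
    | succ i ih => rw [hs]; exact max_lt ih (hb _)
  · intro γ hγ
    obtain ⟨i, hi⟩ := hb' γ hγ
    refine ⟨i, hi.trans_le ?_⟩
    cases i with
    | zero => exact le_rfl
    | succ i => rw [hs]; exact le_max_right _ _

end Pool.Agent.TH627.UT
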