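import Pool.Agent.TH627.UT.Basic
import Pool.Agent.Helper133.Brouwer

set_option autoImplicit false

open Set Topology

universe u v

namespace Pool.Agent.TH627.UT

/-- `Tow l S T`: the set `T` is obtained from `S` by successive partitions between the pairs of the
list `l`. -/
inductive Tow {W : Type u} [TopologicalSpace W] : List (Set W × Set W) → Set W → Set W → Prop
  | nil (S : Set W) : Tow [] S S
  | cons (A C : Set W) (l : List (Set W × Set W)) (S T P Q : Set W) (hP : IsClosed P)
      (hQ : IsClosed Q) (hPQ : P ∪ Q = S) (hAQ : Disjoint A Q) (hCP : Disjoint C P)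
      (h : Tow l (P ∩ Q) T) : Tow ((A, C) :: l) S T

variable {W : Type u} [TopologicalSpace W]

theorem Tow.subset {l : List (Set W × Set W)} {S T : Set W} (h : Tow l S T) : T ⊆ S := by
  induction h with
  | nil => exact subset_rfl
  | cons A C l S T P Q hP hQ hPQ hAQ hCP h ih =>
    exact ih.trans (inter_subset_left.trans (hPQ ▸ subset_union_left))

theorem Tow.isClosed {l : List (Set W × Set W)} {S T : Set W} (h : Tow l S T) (hS : IsClosed S) :
    IsClosed T := by
  induction h with
  | nil => exact hS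
  | cons A C l S T P Q hP hQ hPQ hAQ hCP h ih => exact ih (hP.inter hQ)

theorem Tow.append {l l' : List (Set W × Set W)} {S T T' : Set W} (h : Tow l S T)
    (h' : Tow l' T T') : Tow (l ++ l') S T' := by
  induction h with
  | nil => exact h'
  | cons A C l S T P Q hP hQ hPQ hAQ hCP h ih =>
    exact Tow.cons A C _ S T' P Q hP hQ hPQ hAQ hCP (ih h')

theorem Tow.disjoint {l : List (Set W × Set W)} {S T : Set W} (h : Tow l S T) :
    ∀ p ∈ l, Disjoint T p.1 ∧ Disjoint T p.2 := by
  induction h with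
  | nil => intro p hp; simp at hp
  | cons A C l S T P Q hP hQ hPQ hAQ hCP h ih =>
    intro p hp
    rcases List.mem_cons.1 hp with rfl | hp
    · exact ⟨(hAQ.symm.mono_left (h.subset.trans inter_subset_right)),
        (hCP.symm.mono_left (h.subset.trans inter_subset_left))⟩
    · exact ih p hp

theorem Tow.mono_pairs {l : List (Set W × Set W)} {S T : Set W} (h : Tow l S T) :
    ∀ {l' : List (Set W × Set W)},
      List.Forall₂ (fun p q : Set W × Set W => p.1 ⊆ q.1 ∧ p.2 ⊆ q.2) l' l → Tow l' S T := by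
  induction h with
  | nil =>
    intro l' h'
    cases h'
    exact Tow.nil _
  | cons A C l S T P Q hP hQ hPQ hAQ hCP h ih =>
    intro l' h'
    cases h' with
    | cons hp hl =>
      rename_i p l''
      obtain ⟨p1, p2⟩ := p
      exact Tow.cons p1 p2 l'' S T P Q hP hQ hPQ (hAQ.mono_left hp.1) (hCP.mono_left hp.2) (ih hl)

theorem Tow.preimage {W' : Type v} [TopologicalSpace W'] {g : W' → W} (hg : Continuous g)
    {l : List (Set W × Set W)} {S T : Set W} (h : Tow l S T) :
    Tow (l.map fun p => (g ⁻¹' p.1, g ⁻¹' p.2)) (g ⁻¹' S) (g ⁻¹' T) := by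
  induction h with
  | nil => exact Tow.nil _
  | cons A C l S T P Q hP hQ hPQ hAQ hCP h ih =>
    exact Tow.cons _ _ _ _ _ (g ⁻¹' P) (g ⁻¹' Q) (hP.preimage hg) (hQ.preimage hg)
      (by rw [← preimage_union, hPQ]) (hAQ.preimage g) (hCP.preimage g) ih

theorem tow_exists {lam : Ordinal.{0}} (n : ℕ) : ∀ {l : List (Set W × Set W)} {S : Set W},
    l.length = n + 1 → IsClosed S → (∀ p ∈ l, IsClosed p.1 ∧ IsClosed p.2 ∧ Disjoint p.1 p.2) →
    Dle (lam + n) S → ∃ T, Tow l S T ∧ Dlt lam T := by
  induction n with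
  | zero =>
    intro l S hl hS hp hD
    match l, hl with
    | [(A, C)], _ =>
      obtain ⟨hA, hC, hAC⟩ := hp (A, C) (by simp)
      rw [dle_iff] at hD
      obtain ⟨P, Q, hP, hQ, hPQ, hAQ, hCP, hd⟩ := hD (A ∩ S) (C ∩ S) (hA.inter hS) (hC.inter hS)
        inter_subset_right inter_subset_right (hAC.mono inter_subset_left inter_subset_left)
      have sP : P ⊆ S := hPQ ▸ subset_union_left
      have sQ : Q ⊆ S := hPQ ▸ subset_union_right
      refine ⟨P ∩ Q, Tow.cons A C [] S _ P Q hP hQ hPQ ?_ ?_ (Tow.nil _), ?_⟩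
      · rw [Set.disjoint_left] at hAQ ⊢
        exact fun x hx hx' => hAQ ⟨hx, sQ hx'⟩ hx'
      · rw [Set.disjoint_left] at hCP ⊢
        exact fun x hx hx' => hCP ⟨hx, sP hx'⟩ hx'
      · simpa using hd
  | succ n ih =>
    intro l S hl hS hp hD
    match l, hl with
    | (A, C) :: l', hl =>
      obtain ⟨hA, hC, hAC⟩ := hp (A, C) (by simp)
      rw [dle_iff] at hD
      obtain ⟨P, Q, hP, hQ, hPQ, hAQ, hCP, hd⟩ := hD (A ∩ S) (C ∩ S) (hA.inter hS) (hC.inter hS)
        inter_subset_right inter_subset_right (hAC.mono inter_subset_left inter_subset_left)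
      have sP : P ⊆ S := hPQ ▸ subset_union_left
      have sQ : Q ⊆ S := hPQ ▸ subset_union_right
      have hd' : Dle (lam + n) (P ∩ Q) := by
        rcases hd with hd | ⟨β, hβ, hd⟩
        · exact Dlt.dle (Or.inl hd)
        · refine hd.mono_ord ?_
          rw [Nat.cast_succ, ← add_assoc, ← Order.succ_eq_add_one] at hβ
          exact Order.lt_succ_iff.1 hβ
      obtain ⟨T, hT, hTl⟩ := ih (l := l') (by simpa using hl) (hP.inter hQ)
        (fun p hp' => hp p (List.mem_cons_of_mem _ hp')) hd'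
      refine ⟨T, Tow.cons A C l' S T P Q hP hQ hPQ ?_ ?_ hT, hTl⟩
      · rw [Set.disjoint_left] at hAQ ⊢
        exact fun x hx hx' => hAQ ⟨hx, sQ hx'⟩ hx'
      · rw [Set.disjoint_left] at hCP ⊢
        exact fun x hx hx' => hCP ⟨hx, sP hx'⟩ hx'

/-- `trInd S ≥ β`. -/
def Dge (β : Ordinal.{0}) (S : Set W) : Prop := S.Nonempty ∧ ∀ γ < β, ¬ Dle γ S

/-- A list of pairs is `β`-essential. -/
def Ess (β : Ordinal.{0}) (l : List (Set W × Set W)) : Prop :=
  ∀ T : Set W, Tow l univ T → Dge β T

theorem Ess.succ {β : Ordinal.{0}} {l : List (Set W × Set W)} {A C : Set W} (hA : IsClosed A)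
    (hC : IsClosed C) (hAC : Disjoint A C) (h : Ess β (l ++ [(A, C)])) : Ess (Order.succ β) l := by
  intro T hT
  have hTc : IsClosed T := hT.isClosed isClosed_univ
  constructor
  · rw [nonempty_iff_ne_empty]
    intro h0
    subst h0
    have := h ∅ (hT.append (Tow.cons A C [] ∅ ∅ ∅ ∅ isClosed_empty isClosed_empty (by simp)
      (by simp) (by simp) (by rw [inter_self]; exact Tow.nil _)))
    exact not_nonempty_empty this.1
  · intro γ hγ hD
    have hγ' : γ ≤ β := Order.lt_succ_iff.1 hγ
    rw [dle_iff] at hD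
    obtain ⟨P, Q, hP, hQ, hPQ, hAQ, hCP, hd⟩ := hD (A ∩ T) (C ∩ T) (hA.inter hTc) (hC.inter hTc)
        inter_subset_right inter_subset_right (hAC.mono inter_subset_left inter_subset_left)
    have sP : P ⊆ T := hPQ ▸ subset_union_left
    have sQ : Q ⊆ T := hPQ ▸ subset_union_right
    have := h (P ∩ Q) (hT.append (Tow.cons A C [] T _ P Q hP hQ hPQ (by
        rw [Set.disjoint_left] at hAQ ⊢
        exact fun x hx hx' => hAQ ⟨hx, sQ hx'⟩ hx') (by
        rw [Set.disjoint_left] at hCP ⊢
        exact fun x hx hx' => hCP ⟨hx, sP hx'⟩ hx') (Tow.nil _)))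
    rcases hd with hd | ⟨δ, hδ, hd⟩
    · rw [hd] at this
      exact not_nonempty_empty this.1
    · exact this.2 δ (hδ.trans_le hγ') hd

theorem Ess.limit {lam : Ordinal.{0}} {l : List (Set W × Set W)} {ι : Type*} [Nonempty ι]
    {b : ι → Ordinal.{0}} (hb : ∀ γ < lam, ∃ i, γ < b i) (h : ∀ i, Ess (b i) l) : Ess lam l := by
  intro T hT
  refine ⟨(h (Classical.arbitrary ι) T hT).1, fun γ hγ => ?_⟩
  obtain ⟨i, hi⟩ := hb γ hγ
  exact (h i T hT).2 γ hi

theorem Ess.of_map {W' : Type v} [TopologicalSpace W'] [CompactSpace W'] [T2Space W] {g : W' → W}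
    (hg : Continuous g) (hinj : Function.Injective g) {β : Ordinal.{0}}
    {l : List (Set W × Set W)} (h : Ess β (l.map fun p => (g ⁻¹' p.1, g ⁻¹' p.2))) : Ess β l := by
  intro T hT
  have h1 := h (g ⁻¹' T) (by simpa using hT.preimage hg)
  refine ⟨h1.1.elim fun x hx => ⟨g x, hx⟩, fun γ hγ hD => ?_⟩
  exact h1.2 γ hγ (hD.preimage g hg (hT.isClosed isClosed_univ) hinj.injOn)

/-- Towers in metric spaces are cut out by real functions with the right signs. -/
theorem Tow.functions {M : Type u} [MetricSpace M] {l : List (Set M × Set M)} {S T : Set M}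
    (h : Tow l S T) : (∀ p ∈ l, IsClosed p.1 ∧ IsClosed p.2 ∧ Disjoint p.1 p.2 ∧
      p.1.Nonempty ∧ p.2.Nonempty) →
    ∃ fs : List C(M, ℝ), List.Forall₂ (fun (p : Set M × Set M) (f : C(M, ℝ)) =>
      (∀ w ∈ p.1, 0 ≤ f w) ∧ (∀ w ∈ p.2, f w ≤ 0)) l fs ∧
      ∀ w ∈ S, (∀ f ∈ fs, f w = 0) → w ∈ T := by
  induction h with
  | nil =>
    intro _
    exact ⟨[], List.Forall₂.nil, fun w hw _ => hw⟩
  | cons A C l S T P Q hP hQ hPQ hAQ hCP h ih =>
    intro hp
    obtain ⟨fs, hfs, hz⟩ := ih (fun p hp' => hp p (List.mem_cons_of_mem _ hp'))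
    obtain ⟨hA, hC, hAC, hAn, hCn⟩ := hp (A, C) (by simp)
    refine ⟨⟨fun w => Metric.infDist w (C ∪ Q) - Metric.infDist w (A ∪ P),
      (Metric.continuous_infDist_pt _).sub (Metric.continuous_infDist_pt _)⟩ :: fs,
      List.Forall₂.cons ⟨?_, ?_⟩ hfs, ?_⟩
    · intro w hw
      show 0 ≤ Metric.infDist w (C ∪ Q) - Metric.infDist w (A ∪ P)
      rw [Metric.infDist_zero_of_mem (show w ∈ A ∪ P from Or.inl hw), sub_zero]
      exact Metric.infDist_nonneg
    · intro w hw
      show Metric.infDist w (C ∪ Q) - Metric.infDist w (A ∪ P) ≤ 0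
      rw [Metric.infDist_zero_of_mem (show w ∈ C ∪ Q from Or.inl hw), zero_sub]
      exact neg_nonpos.2 Metric.infDist_nonneg
    · intro w hwS hw
      have h0 : Metric.infDist w (C ∪ Q) - Metric.infDist w (A ∪ P) = 0 := hw _ List.mem_cons_self
      have hCQc : IsClosed (C ∪ Q) := hC.union hQ
      have hAPc : IsClosed (A ∪ P) := hA.union hP
      have hCQn : (C ∪ Q).Nonempty := hCn.mono subset_union_left
      have hAPn : (A ∪ P).Nonempty := hAn.mono subset_union_left
      have hPQw : w ∈ P ∩ Q := by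
        have hw2 : w ∈ P ∪ Q := by rw [hPQ]; exact hwS
        rcases hw2 with hwP | hwQ
        · rw [Metric.infDist_zero_of_mem (show w ∈ A ∪ P from Or.inr hwP), sub_zero] at h0
          rcases (hCQc.mem_iff_infDist_zero hCQn).2 h0 with h | h
          · exact absurd hwP (Set.disjoint_left.1 hCP h)
          · exact ⟨hwP, h⟩
        · rw [Metric.infDist_zero_of_mem (show w ∈ C ∪ Q from Or.inr hwQ), zero_sub,
            neg_eq_zero] at h0
          rcases (hAPc.mem_iff_infDist_zero hAPn).2 h0 with h | h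
          · exact absurd hwQ (Set.disjoint_left.1 hAQ h)
          · exact ⟨h, hwQ⟩
      exact hz w hPQw (fun f hf => hw f (List.mem_cons_of_mem _ hf))

/-- Poincaré–Miranda. -/
theorem miranda {s : ℕ} (f : Fin s → (Fin s → unitInterval) → ℝ) (hf : ∀ i, Continuous (f i))
    (h0 : ∀ i x, x i = 0 → 0 ≤ f i x) (h1 : ∀ i x, x i = 1 → f i x ≤ 0) :
    ∃ x, ∀ i, f i x = 0 := by
  let c : (Fin s → ℝ) → (Fin s → unitInterval) := fun x i => projIcc (0 : ℝ) 1 zero_le_one (x i)
  have hc : Continuous c := continuous_pi fun i =>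
    (continuous_projIcc (h := zero_le_one)).comp (continuous_apply i)
  let F : (Fin s → ℝ) → (Fin s → ℝ) := fun x i =>
    (projIcc (0 : ℝ) 1 zero_le_one ((c x i : ℝ) + f i (c x)) : ℝ)
  have hF : Continuous F := by
    refine continuous_pi fun i => continuous_subtype_val.comp
      ((continuous_projIcc (h := zero_le_one)).comp ?_)
    exact (continuous_subtype_val.comp ((continuous_apply i).comp hc)).add ((hf i).comp hc)
  obtain ⟨x, hx⟩ := Pool.Agent.Helper133.Brouwer.brouwer F hF 1 (by
    intro x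
    rw [pi_norm_le_iff_of_nonneg zero_le_one]
    intro i
    rw [Real.norm_eq_abs, abs_le]
    have := (projIcc (0 : ℝ) 1 zero_le_one ((c x i : ℝ) + f i (c x))).2
    constructor
    · show -1 ≤ ((projIcc (0 : ℝ) 1 zero_le_one ((c x i : ℝ) + f i (c x)) : ℝ))
      linarith [this.1]
    · exact this.2)
  refine ⟨c x, fun i => ?_⟩
  have hxi : (projIcc (0 : ℝ) 1 zero_le_one ((c x i : ℝ) + f i (c x)) : ℝ) = x i := congrFun hx i
  have hci : (c x i : ℝ) = x i := by
    show (projIcc (0 : ℝ) 1 zero_le_one (x i) : ℝ) = x i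
    have h2 : x i ∈ Icc (0 : ℝ) 1 := by
      rw [← hxi]
      exact (projIcc (0 : ℝ) 1 zero_le_one ((c x i : ℝ) + f i (c x))).2
    rw [projIcc_of_mem zero_le_one h2]
  set a : ℝ := (c x i : ℝ) with ha
  set b : ℝ := f i (c x) with hb
  rw [← hci] at hxi
  have ha01 : a ∈ Icc (0 : ℝ) 1 := (c x i).2
  rcases lt_trichotomy b 0 with hb0 | hb0 | hb0
  · exfalso
    rcases eq_or_lt_of_le ha01.1 with ha0 | ha0
    · have : c x i = 0 := Subtype.ext ha0.symm
      have := h0 i (c x) this
      linarith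
    · rcases le_total (a + b) 0 with h3 | h3
      · rw [projIcc_of_le_left zero_le_one h3] at hxi
        change (0 : ℝ) = a at hxi
        linarith
      · rw [projIcc_of_mem zero_le_one ⟨h3, by linarith [ha01.2]⟩] at hxi
        change a + b = a at hxi
        linarith
  · exact hb0
  · exfalso
    rcases eq_or_lt_of_le ha01.2 with ha0 | ha0
    · have : c x i = 1 := Subtype.ext ha0
      have := h1 i (c x) this
      linarith
    · rcases le_total 1 (a + b) with h3 | h3
      · rw [projIcc_of_right_le zero_le_one h3] at hxi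
        change (1 : ℝ) = a at hxi
        linarith
      · rw [projIcc_of_mem zero_le_one ⟨by linarith [ha01.1], h3⟩] at hxi
        change a + b = a at hxi
        linarith

/-- The list of pairs of opposite faces. -/
def faces {W : Type u} {s : ℕ} (u : Fin s → W → unitInterval) : List (Set W × Set W) :=
  List.ofFn fun i => ({w | u i w = 0}, {w | u i w = 1})

theorem faces_map {W : Type u} {W' : Type v} {s : ℕ} (u : Fin s → W → unitInterval) (g : W' → W) :
    (faces u).map (fun p => (g ⁻¹' p.1, g ⁻¹' p.2)) = faces (fun i w => u i (g w)) := by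
  unfold faces
  rw [List.map_ofFn]
  rfl

theorem ess_zero_cube (s : ℕ) :
    Ess 0 (faces (fun (i : Fin s) (x : Fin s → unitInterval) => x i)) := by
  intro T hT
  refine ⟨?_, fun γ hγ => absurd hγ (not_lt_zero)⟩
  obtain ⟨fs, hfs, hz⟩ := hT.functions (by
    intro p hp
    unfold faces at hp
    rw [List.mem_ofFn] at hp
    obtain ⟨i, rfl⟩ := hp
    refine ⟨isClosed_eq (continuous_apply i) continuous_const,
      isClosed_eq (continuous_apply i) continuous_const, ?_, ⟨fun _ => 0, rfl⟩, ⟨fun _ => 1, rfl⟩⟩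
    rw [Set.disjoint_left]
    intro x hx hx'
    have h1 : x i = 0 := hx
    have h2 : x i = 1 := hx'
    rw [h1] at h2
    exact zero_ne_one h2)
  have hlen := hfs.length_eq
  have hlen' : fs.length = s := by
    rw [← hlen]; unfold faces; rw [List.length_ofFn]
  rw [List.forall₂_iff_get] at hfs
  obtain ⟨_, hfs⟩ := hfs
  obtain ⟨x, hx⟩ := miranda (fun i => (fs.get ⟨i, by rw [hlen']; exact i.2⟩ : (Fin s → unitInterval) → ℝ))
    (fun i => (fs.get ⟨i, by rw [hlen']; exact i.2⟩).continuous)
    (by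
      intro i x hx
      have := (hfs i (by unfold faces; rw [List.length_ofFn]; exact i.2) (by rw [hlen']; exact i.2)).1
      apply this
      simp only [faces, List.get_eq_getElem, List.getElem_ofFn]
      exact hx)
    (by
      intro i x hx
      have := (hfs i (by unfold faces; rw [List.length_ofFn]; exact i.2) (by rw [hlen']; exact i.2)).2
      apply this
      simp only [faces, List.get_eq_getElem, List.getElem_ofFn]
      exact hx)
  refine ⟨x, hz x (mem_univ _) ?_⟩
  intro f hf
  obtain ⟨⟨i, hi⟩, rfl⟩ := List.get_of_mem hf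
  exact hx ⟨i, by rw [← hlen']; exact hi⟩

end Pool.Agent.TH627.UT
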