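import Pool.Agent.TH627.UT.Spaces
import Pool.Agent.TH627.UT.Tower

set_option autoImplicit false

open Set Topology Filter Ordinal Order TopologicalSpace

universe u v

namespace Pool.Agent.TH627.UT

/-- Upper bound for all products with cubes. -/
def UB (β : Ordinal.{0}) (Φ : Type) [TopologicalSpace Φ] : Prop :=
  ∀ k : ℕ, Dle (β + k) (univ : Set ((Fin k → unitInterval) × Φ))

/-- Lower bound: the opposite faces are essential. -/
def EB (β : Ordinal.{0}) (Φ : Type) [TopologicalSpace Φ] : Prop :=
  ∀ s : ℕ, Ess β (faces (fun (i : Fin s) (w : (Fin s → unitInterval) × Φ) => w.1 i))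

theorem ub_zero : UB 0 Unit := by
  intro k
  rw [zero_add]
  have h := dle_image (fun w : (Fin k → unitInterval) × Unit => w.1) continuous_fst
    (β := (k : Ordinal.{0})) isClosed_univ (by
      intro w _ w' _ h
      exact Prod.ext h rfl)
  rw [h]
  exact dle_cube k 0 _ (isClosed_univ.isCompact.image continuous_fst).isClosed
    (fun x _ => ni_card_le 0 x)

theorem eb_zero : EB 0 Unit := by
  intro s
  refine Ess.of_map (g := fun x : Fin s → unitInterval => (x, ())) (by fun_prop) ?_ ?_
  · intro x y h
    exact congrArg Prod.fst h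
  · rw [faces_map]
    exact ess_zero_cube s

theorem ub_succ {β : Ordinal.{0}} {Φ : Type} [TopologicalSpace Φ] [CompactSpace Φ] [T2Space Φ]
    (h : UB β Φ) : UB (succ β) (unitInterval × Φ) := by
  intro k
  have h1 := h (k + 1)
  have e : succ β + (k : Ordinal.{0}) = β + ((k + 1 : ℕ) : Ordinal.{0}) := by
    rw [succ_eq_add_one, add_assoc]
    congr 1
    have : ((k + 1 : ℕ) : Ordinal.{0}) = ((1 + k : ℕ) : Ordinal.{0}) := by rw [Nat.add_comm]
    rw [this]
    push_cast
    rfl
  rw [e]
  let g : (Fin k → unitInterval) × (unitInterval × Φ) → (Fin (k + 1) → unitInterval) × Φ :=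
    fun w => (Fin.snoc (α := fun _ => unitInterval) w.1 w.2.1, w.2.2)
  have hg : Continuous g := by
    refine Continuous.prodMk ?_ (continuous_snd.comp continuous_snd)
    exact Continuous.finSnoc continuous_fst (continuous_fst.comp continuous_snd)
  have hgi : InjOn g univ := by
    intro w _ w' _ hw
    have a1 : (Fin.snoc (α := fun _ => unitInterval) w.1 w.2.1 : Fin (k + 1) → unitInterval) =
        Fin.snoc (α := fun _ => unitInterval) w'.1 w'.2.1 := congrArg (fun q => q.1) hw
    have a2 : w.2.2 = w'.2.2 := congrArg (fun q => q.2) hw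
    have a3 : w.2.1 = w'.2.1 := by
      have := congrFun a1 (Fin.last k)
      simpa using this
    have a4 : w.1 = w'.1 := by
      funext i
      have := congrFun a1 i.castSucc
      simpa using this
    exact Prod.ext a4 (Prod.ext a3 a2)
  rw [dle_image g hg isClosed_univ hgi]
  exact h1.mono (isClosed_univ.isCompact.image hg).isClosed (subset_univ _)

theorem eb_succ {β : Ordinal.{0}} {Φ : Type} [TopologicalSpace Φ] [CompactSpace Φ] [T2Space Φ]
    (h : EB β Φ) : EB (succ β) (unitInterval × Φ) := by
  intro s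
  have hc : Continuous fun w : (Fin s → unitInterval) × (unitInterval × Φ) => w.2.1 :=
    continuous_fst.comp continuous_snd
  refine Ess.succ (A := {w | w.2.1 = 0}) (C := {w | w.2.1 = 1})
    (isClosed_eq hc continuous_const) (isClosed_eq hc continuous_const) ?_ ?_
  · rw [Set.disjoint_left]
    intro w hw hw'
    have h1 : w.2.1 = 0 := hw
    have h2 : w.2.1 = 1 := hw'
    rw [h1] at h2
    exact zero_ne_one h2
  · refine Ess.of_map (g := fun w : (Fin (s + 1) → unitInterval) × Φ =>
      ((fun i : Fin s => w.1 i.castSucc), (w.1 (Fin.last s), w.2))) (by fun_prop) ?_ ?_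
    · intro w w' hw
      have a1 := congrArg Prod.fst hw
      have a2 := congrArg (fun q => q.2.1) hw
      have a3 := congrArg (fun q => q.2.2) hw
      refine Prod.ext ?_ a3
      funext i
      refine Fin.lastCases ?_ (fun i => ?_) i
      · exact a2
      · exact congrFun a1 i
    · rw [List.map_append, faces_map]
      have := h (s + 1)
      unfold faces at this ⊢
      rw [List.ofFn_succ_last] at this
      exact this

theorem exists_κ (Φ : Type) [TopologicalSpace Φ] [CompactSpace Φ] [MetrizableSpace Φ] {c : ℝ}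
    (hc : 0 < c) : ∃ κ : Φ → E, Continuous κ ∧ Function.Injective κ ∧ ∀ y, ‖κ y‖ ≤ c := by
  let _ := metrizableSpaceMetric Φ
  obtain ⟨f, hf⟩ := exists_embedding_l_infty Φ
  obtain ⟨R, hR⟩ := (isCompact_range hf.continuous).isBounded.exists_norm_le
  have hR' : ∀ y, ‖f y‖ ≤ R := fun y => hR _ (mem_range_self y)
  refine ⟨fun y => (c / (|R| + 1)) • f y,
    (continuous_const_smul (c / (|R| + 1))).comp hf.continuous, ?_, ?_⟩
  · intro y y' hy
    have h0 : c / (|R| + 1) ≠ 0 := by positivity
    exact hf.injective (smul_right_injective E h0 hy)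
  · intro y
    rw [norm_smul, Real.norm_eq_abs, abs_of_pos (by positivity)]
    rw [div_mul_eq_mul_div, div_le_iff₀ (by positivity)]
    apply mul_le_mul_of_nonneg_left _ hc.le
    exact (hR' y).trans ((le_abs_self R).trans (by linarith))

theorem exists_cofinal {lam : Ordinal.{0}} (hl : IsSuccLimit lam) (h1 : lam < ω₁) :
    ∃ b : ℕ → Ordinal.{0}, (∀ i, b i < lam) ∧ ∀ γ < lam, ∃ i, γ < b i := by
  have hc : (Iio lam).Countable := by
    rw [← Cardinal.le_aleph0_iff_set_countable, Cardinal.mk_Iio_ordinal]
    rw [Cardinal.lt_omega_iff_card_lt] at h1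
    have : lam.card ≤ Cardinal.aleph0 := by
      rw [← Order.lt_succ_iff, Cardinal.succ_aleph0]
      exact h1
    exact Cardinal.lift_le_aleph0.2 this
  obtain ⟨b, hb⟩ := hc.exists_eq_range ⟨0, hl.bot_lt⟩
  refine ⟨b, fun i => ?_, fun γ hγ => ?_⟩
  · have : b i ∈ Iio lam := by rw [hb]; exact mem_range_self i
    exact this
  · have : succ γ ∈ range b := by rw [← hb]; exact hl.succ_lt hγ
    obtain ⟨i, hi⟩ := this
    exact ⟨i, hi ▸ lt_succ γ⟩

namespace SD

/-- map to the `j`th level when the base is a point -/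
noncomputable def f0 (D : SD 0) {k : ℕ} (j : ℕ) (w : (Fin k → unitInterval) × D.Φ j) :
    (Fin k → unitInterval) × D.X := (w.1, D.f j (default, w.2))

theorem continuous_f0 (D : SD 0) {k : ℕ} (j : ℕ) : Continuous (D.f0 (k := k) j) := by
  unfold f0
  exact continuous_fst.prodMk ((D.continuous_f j).comp (continuous_const.prodMk continuous_snd))

theorem f0_injective (D : SD 0) (hφ : ∀ j x, D.φ j x = 1) {k : ℕ} (j : ℕ) :
    Function.Injective (D.f0 (k := k) j) := by
  intro w w' h
  have h1 : w.1 = w'.1 := congrArg (fun q => q.1) h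
  have h2 : D.f j (default, w.2) = D.f j (default, w'.2) := congrArg (fun q => q.2) h
  have h3 := D.f_injOn j h2 (by rw [hφ]; exact one_ne_zero)
  exact Prod.ext h1 (congrArg (fun q => q.2) h3)

theorem ub_limit (D : SD 0) (hφ : ∀ j x, D.φ j x = 1) {lam : Ordinal.{0}} (hl : IsSuccLimit lam)
    {b : ℕ → Ordinal.{0}} (hb : ∀ i, b i < lam) (h : ∀ i, UB (b i) (D.Φ i)) : UB lam D.X := by
  intro k
  refine lemmaB (Y := (Fin k → unitInterval) × D.X) (fun w => w.1) continuous_fst
    (fun j => {w | w.2 ∈ D.lev j}) (fun j => (D.isClopen_lev j).preimage continuous_snd) ?_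
    (fun k => lam + k) ?_ ?_ k 0 univ isClosed_univ (fun i hi => absurd hi (Nat.not_lt_zero i))
    (fun y _ => ni_card_le 0 _)
  · intro w w' h h' hw
    exact Prod.ext hw (D.inj_off_lev h h' (Subsingleton.elim _ _))
  · intro k
    have : (k : Ordinal.{0}) < ((k + 1 : ℕ) : Ordinal.{0}) := by exact_mod_cast Nat.lt_succ_self k
    exact add_lt_add_right this lam
  · intro j k' F hF hFl _
    have h1 := h j k
    rw [dle_image (D.f0 (k := k) j) (D.continuous_f0 j) isClosed_univ
      (D.f0_injective hφ j).injOn] at h1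
    have h2 : F ⊆ D.f0 (k := k) j '' univ := by
      intro w hw
      obtain ⟨w', hw'⟩ := D.lev_subset_range j (hFl hw)
      refine ⟨(w.1, w'.2), mem_univ _, ?_⟩
      unfold f0
      refine Prod.ext rfl ?_
      show D.f j (default, w'.2) = w.2
      rw [← hw']
      congr 1
      exact Prod.ext (Subsingleton.elim _ _) rfl
    refine (h1.mono hF h2).mono_ord ?_
    exact (hl.add_natCast_lt (hb j) k).le.trans (le_self_add)

theorem eb_limit (D : SD 0) (hφ : ∀ j x, D.φ j x = 1) {lam : Ordinal.{0}}
    {b : ℕ → Ordinal.{0}} (hb : ∀ γ < lam, ∃ i, γ < b i) (h : ∀ i, EB (b i) (D.Φ i)) :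
    EB lam D.X := by
  intro s
  refine Ess.limit hb fun i => ?_
  refine Ess.of_map (D.continuous_f0 i) (D.f0_injective hφ i) ?_
  rw [faces_map]
  exact h i s

end SD

theorem exists_phi (β : Ordinal.{0}) (hβ : β < ω₁) : ∃ (Φ : Type) (_ : TopologicalSpace Φ),
    CompactSpace Φ ∧ MetrizableSpace Φ ∧ Nonempty Φ ∧ UB β Φ ∧ EB β Φ := by
  induction β using WellFoundedLT.induction with
  | ind β ih =>
  rcases zero_or_succ_or_isSuccLimit β with rfl | ⟨γ, rfl⟩ | hl
  · exact ⟨Unit, inferInstance, inferInstance, inferInstance, inferInstance, ub_zero, eb_zero⟩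
  · obtain ⟨Φ, t, hc, hm, hn, hu, he⟩ := ih γ (lt_succ γ) ((lt_succ γ).trans hβ)
    exact ⟨unitInterval × Φ, inferInstance, inferInstance, inferInstance, inferInstance,
      ub_succ hu, eb_succ he⟩
  · obtain ⟨b, hb, hb'⟩ := exists_cofinal hl hβ
    choose Φ t hc hm hn hu he using fun i => ih (b i) (hb i) ((hb i).trans hβ)
    choose κ κc κi κn using fun i =>
      @exists_κ (Φ i) (t i) (hc i) (hm i) ((1 / 2) ^ i) (by positivity)
    let D : SD 0 :=
      { Φ := Φ
        inst := t
        cpt := hc
        κ := κ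
        κc := κc
        κi := κi
        κn := κn
        φ := fun _ _ => 1
        φc := fun _ => continuous_const
        φb := fun _ _ => by simp }
    exact ⟨D.X, inferInstance, inferInstance, inferInstance, ⟨D.base default⟩,
      D.ub_limit (fun _ _ => rfl) hl hb hu, D.eb_limit (fun _ _ => rfl) hb' he⟩

end Pool.Agent.TH627.UT
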