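import Pool.Agent.TH627.UT.Cells

set_option autoImplicit false

open Set Topology

universe u v

namespace Pool.Agent.TH627.UT

theorem lemmaB {Y : Type u} [TopologicalSpace Y] [CompactSpace Y] {s : ℕ}
    (π : Y → (Fin s → unitInterval)) (hπ : Continuous π) (lev : ℕ → Set Y)
    (hlev : ∀ j, IsClopen (lev j))
    (hinj : ∀ y y', (∀ j, y ∉ lev j) → (∀ j, y' ∉ lev j) → π y = π y' → y = y')
    (ρ : ℕ → Ordinal.{0}) (hρ : ∀ k, ρ k < ρ (k + 1))
    (H : ∀ j k (F : Set Y), IsClosed F → F ⊆ lev j → (∀ y ∈ F, (ni j (π y)).card ≤ k) →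
      Dle (ρ k) F) :
    ∀ k j (F : Set Y), IsClosed F → (∀ i < j, ∀ y ∈ F, y ∉ lev i) →
      (∀ y ∈ F, (ni j (π y)).card ≤ k) → Dle (ρ k) F := by
  intro k
  induction k using Nat.strong_induction_on with
  | _ k ih =>
  intro j F hF hFj hFk
  rw [dle_iff]
  intro A C hA hC hAF hCF hAC
  -- choose `j₁`
  have hG : ∀ m, IsClosed {y : Y | y ∈ F ∧ ∀ i < m, y ∉ lev i} := by
    intro m
    have : {y : Y | y ∈ F ∧ ∀ i < m, y ∉ lev i} = F ∩ ⋂ i ∈ {i | i < m}, (lev i)ᶜ := by
      ext y; simp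
    rw [this]
    exact hF.inter (isClosed_biInter fun i _ => (hlev i).compl.isClosed)
  obtain ⟨j₁, hj₁, hsep⟩ : ∃ j₁, j ≤ j₁ ∧ ∀ a ∈ A, ∀ c ∈ C, (∀ i < j₁, a ∉ lev i) →
      (∀ i < j₁, c ∉ lev i) → ¬ dist (π a) (π c) ≤ (1 / 2) ^ j₁ := by
    by_contra hcon
    push Not at hcon
    let t : ℕ → Set (Y × Y) := fun m => {q | (q.1 ∈ A ∧ ∀ i < j + m, q.1 ∉ lev i) ∧
      (q.2 ∈ C ∧ ∀ i < j + m, q.2 ∉ lev i) ∧ dist (π q.1) (π q.2) ≤ (1 / 2) ^ (j + m)}
    have hAm : ∀ (A : Set Y), IsClosed A → ∀ m, IsClosed {y : Y | y ∈ A ∧ ∀ i < m, y ∉ lev i} := by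
      intro A hA m
      have : {y : Y | y ∈ A ∧ ∀ i < m, y ∉ lev i} = A ∩ ⋂ i ∈ {i | i < m}, (lev i)ᶜ := by
        ext y; simp
      rw [this]
      exact hA.inter (isClosed_biInter fun i _ => (hlev i).compl.isClosed)
    have htcl : ∀ m, IsClosed (t m) := by
      intro m
      refine ((hAm A hA (j + m)).preimage continuous_fst).inter
        (((hAm C hC (j + m)).preimage continuous_snd).inter ?_)
      exact isClosed_le (continuous_dist.comp ((hπ.comp continuous_fst).prodMk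
        (hπ.comp continuous_snd))) continuous_const
    have htn : ∀ m, (t m).Nonempty := by
      intro m
      obtain ⟨a, ha, c, hc, h1, h2, h3⟩ := hcon (j + m) (Nat.le_add_right _ _)
      exact ⟨(a, c), ⟨ha, h1⟩, ⟨hc, h2⟩, h3⟩
    have htd : ∀ m, t (m + 1) ⊆ t m := by
      rintro m ⟨a, c⟩ ⟨⟨h1, h2⟩, ⟨h3, h4⟩, h5⟩
      refine ⟨⟨h1, fun i hi => h2 i (by omega)⟩, ⟨h3, fun i hi => h4 i (by omega)⟩, h5.trans ?_⟩
      exact pow_le_pow_of_le_one (by norm_num) (by norm_num) (by omega)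
    obtain ⟨⟨a, c⟩, hac⟩ := IsCompact.nonempty_iInter_of_sequence_nonempty_isCompact_isClosed t htd htn
      (htcl 0).isCompact htcl
    rw [mem_iInter] at hac
    have hal : ∀ i, a ∉ lev i := fun i => (hac (i + 1)).1.2 i (by omega)
    have hcl : ∀ i, c ∉ lev i := fun i => (hac (i + 1)).2.1.2 i (by omega)
    have hd : dist (π a) (π c) ≤ 0 := by
      have hlim : Filter.Tendsto (fun m : ℕ => ((1 : ℝ) / 2) ^ (j + m)) Filter.atTop (𝓝 0) := by
        have h1 := tendsto_pow_atTop_nhds_zero_of_lt_one (r := (1 : ℝ) / 2) (by norm_num)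
          (by norm_num)
        have h2 := h1.comp (Filter.tendsto_add_atTop_nat j)
        refine h2.congr fun m => ?_
        simp only [Function.comp_apply]
        rw [add_comm]
      exact ge_of_tendsto' hlim fun m => (hac m).2.2
    have hpe : π a = π c := dist_le_zero.1 hd
    have := hinj a c hal hcl hpe
    subst this
    exact (Set.disjoint_left.1 hAC) (hac 0).1.1 (hac 0).2.1.1
  -- partition of the part beyond level `j₁`
  have hbase : Part (ρ k) {y : Y | y ∈ F ∧ ∀ i < j₁, y ∉ lev i} A C := by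
    set G : Set Y := {y : Y | y ∈ F ∧ ∀ i < j₁, y ∉ lev i} with hGdef
    have hGc : IsClosed G := hG j₁
    let idx := (Fin s → Fin (2 ^ j₁ + 1)) × Finset (Fin s)
    let K : idx → Set Y := fun c => π ⁻¹' (cell j₁ c.1 c.2) ∩ G
    have hK : ∀ c, IsClosed (K c) := fun c => ((isClosed_cell j₁ c.1 c.2).preimage hπ).inter hGc
    let good : Set idx := {c | c.2.card ≤ k ∧ Disjoint C (K c)}
    let bad : Set idx := {c | c.2.card ≤ k ∧ ¬ Disjoint C (K c)}
    refine ⟨⋃ c ∈ good, K c, ⋃ c ∈ bad, K c, ?_, ?_, ?_, ?_, ?_, ?_⟩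
    · exact (Set.toFinite good).isClosed_biUnion fun c _ => hK c
    · exact (Set.toFinite bad).isClosed_biUnion fun c _ => hK c
    · apply Subset.antisymm
      · apply union_subset
        · exact iUnion₂_subset fun c _ => inter_subset_right
        · exact iUnion₂_subset fun c _ => inter_subset_right
      · intro y hy
        obtain ⟨p, hp⟩ := exists_cell j₁ (π y)
        have hcard : (ni j₁ (π y)).card ≤ k :=
          (Finset.card_le_card (ni_anti hj₁ (π y))).trans (hFk y hy.1)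
        by_cases hd : Disjoint C (K (p, ni j₁ (π y)))
        · exact Or.inl (mem_iUnion₂.2 ⟨(p, ni j₁ (π y)), ⟨hcard, hd⟩, hp, hy⟩)
        · exact Or.inr (mem_iUnion₂.2 ⟨(p, ni j₁ (π y)), ⟨hcard, hd⟩, hp, hy⟩)
    · rw [Set.disjoint_left]
      intro a ha ha'
      obtain ⟨c, ⟨_, hc⟩, ha1, ha2⟩ := mem_iUnion₂.1 ha'
      rw [Set.not_disjoint_iff] at hc
      obtain ⟨y, hyC, hy1, hy2⟩ := hc
      exact hsep a ha y hyC ha2.2 hy2.2 (dist_le_of_mem_cell ha1 hy1)
    · rw [Set.disjoint_left]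
      intro a ha ha'
      obtain ⟨c, ⟨_, hc⟩, ha1⟩ := mem_iUnion₂.1 ha'
      exact (Set.disjoint_left.1 hc) ha ha1
    · have hlow : ∀ y ∈ (⋃ c ∈ good, K c) ∩ (⋃ c ∈ bad, K c), (ni j₁ (π y)).card < k := by
        rintro y ⟨h1, h2⟩
        obtain ⟨c, ⟨hc1, hc2⟩, h1, _⟩ := mem_iUnion₂.1 h1
        obtain ⟨c', ⟨hc1', hc2'⟩, h2, _⟩ := mem_iUnion₂.1 h2
        by_contra hlt
        obtain ⟨e1, e2⟩ := cell_unique h1 h2 hc1 hc1' (not_lt.1 hlt)
        have : c = c' := Prod.ext e1 e2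
        subst this
        exact hc2' hc2
      have hcl : IsClosed ((⋃ c ∈ good, K c) ∩ (⋃ c ∈ bad, K c)) :=
        ((Set.toFinite good).isClosed_biUnion fun c _ => hK c).inter
          ((Set.toFinite bad).isClosed_biUnion fun c _ => hK c)
      have hsub : (⋃ c ∈ good, K c) ∩ (⋃ c ∈ bad, K c) ⊆ G :=
        inter_subset_left.trans (iUnion₂_subset fun c _ => inter_subset_right)
      rcases Nat.eq_zero_or_pos k with hk0 | hk0
      · left
        rw [Set.eq_empty_iff_forall_notMem]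
        intro y hy
        have := hlow y hy
        omega
      · right
        refine ⟨ρ (k - 1), ?_, ?_⟩
        · have := hρ (k - 1)
          rwa [Nat.sub_add_cancel hk0] at this
        · refine ih (k - 1) (by omega) j₁ _ hcl (fun i hi y hy => (hsub hy).2 i hi) ?_
          intro y hy
          have := hlow y hy
          omega
  -- go down
  have hdown : ∀ d i, i + d = j₁ → j ≤ i → Part (ρ k) {y : Y | y ∈ F ∧ ∀ i' < i, y ∉ lev i'} A C := by
    intro d
    induction d with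
    | zero =>
      intro i hi _
      have : i = j₁ := by omega
      subst this
      exact hbase
    | succ d ihd =>
      intro i hi hji
      refine Part.union (hlev i) ?_ ?_
      · have hcl : IsClosed ({y : Y | y ∈ F ∧ ∀ i' < i, y ∉ lev i'} ∩ lev i) :=
          (hG i).inter (hlev i).isClosed
        refine (H i k _ hcl inter_subset_right ?_).part hcl hA hC hAC
        intro y hy
        exact (Finset.card_le_card (ni_anti hji (π y))).trans (hFk y hy.1.1)
      · have e : {y : Y | y ∈ F ∧ ∀ i' < i, y ∉ lev i'} ∩ (lev i)ᶜ =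
            {y : Y | y ∈ F ∧ ∀ i' < i + 1, y ∉ lev i'} := by
          ext y
          constructor
          · rintro ⟨⟨h1, h2⟩, h3⟩
            refine ⟨h1, fun i' hi' => ?_⟩
            rcases Nat.lt_succ_iff_lt_or_eq.1 hi' with h | h
            · exact h2 i' h
            · rw [h]; exact h3
          · rintro ⟨h1, h2⟩
            exact ⟨⟨h1, fun i' hi' => h2 i' (by omega)⟩, h2 i (by omega)⟩
        rw [e]
        exact ihd (i + 1) (by omega) (by omega)
  have hfin := hdown (j₁ - j) j (by omega) le_rfl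
  have e : {y : Y | y ∈ F ∧ ∀ i' < j, y ∉ lev i'} = F := by
    ext y
    exact ⟨fun h => h.1, fun h => ⟨h, fun i hi => hFj i hi y h⟩⟩
  rw [e] at hfin
  exact hfin

theorem ni_card_le {s : ℕ} (j : ℕ) (x : Fin s → unitInterval) : (ni j x).card ≤ s := by
  simpa using Finset.card_le_univ (ni j x)

theorem dle_cube {s : ℕ} (k j : ℕ) (F : Set (Fin s → unitInterval)) (hF : IsClosed F)
    (hk : ∀ x ∈ F, (ni j x).card ≤ k) : Dle (k : Ordinal.{0}) F := by
  refine lemmaB (Y := Fin s → unitInterval) (fun x => x) continuous_id (fun _ => ∅)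
    (fun _ => isClopen_empty) (fun y y' _ _ h => h) (fun k => (k : Ordinal.{0})) ?_ ?_ k j F hF
    (fun i _ y _ h => h) hk
  · intro k
    exact_mod_cast Nat.lt_succ_self k
  · intro j k F _ hF' _
    exact Dlt.dle (Or.inl (subset_empty_iff.1 hF'))

/-- Collapse lemma. -/
theorem Dle.collapse {W : Type v} {X : Type u} [TopologicalSpace W] [TopologicalSpace X]
    [CompactSpace W] [T2Space X] (f : W → X) (hf : Continuous f) {S : Set X} (hS : S.Finite)
    (hinj : InjOn f (f ⁻¹' Sᶜ)) {β : Ordinal.{0}} {L : Set X} (hL : IsClosed L)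
    (hLr : L ⊆ range f) (h : Dle β (f ⁻¹' L)) : Dle β L := by
  have hcl : ∀ B : Set W, IsClosed B → IsClosed (f '' B) := fun B hB =>
    (hB.isCompact.image hf).isClosed
  rw [dle_iff]
  intro A C hA hC hAL hCL hAC
  set A' : Set X := A ∪ (S \ C) ∩ L with hA'
  have hA'c : IsClosed A' := hA.union (((hS.subset sdiff_subset).isClosed).inter hL)
  have hA'C : Disjoint A' C := by
    rw [hA', disjoint_union_left]
    refine ⟨hAC, ?_⟩
    rw [Set.disjoint_left]
    rintro x ⟨⟨_, h1⟩, _⟩ h2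
    exact h1 h2
  obtain ⟨P, Q, hP, hQ, hPQ, hAQ, hCP, hd⟩ := h.part (hL.preimage hf) (hA'c.preimage hf)
    (hC.preimage hf) (hA'C.preimage f)
  rw [Set.disjoint_left] at hAQ hCP
  have sP : P ⊆ f ⁻¹' L := hPQ ▸ subset_union_left
  have sQ : Q ⊆ f ⁻¹' L := hPQ ▸ subset_union_right
  have hS1 : ∀ p ∈ P, ∀ q ∈ Q, f p = f q → f p ∉ S := by
    intro p hp q hq hpq hpS
    by_cases hpC : f p ∈ C
    · exact hCP hpC hp
    · apply hAQ (show f q ∈ A' from Or.inr ⟨⟨hpq ▸ hpS, hpq ▸ hpC⟩, hpq ▸ sP hp⟩) hq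
  have himg : f '' P ∩ f '' Q = f '' (P ∩ Q) := by
    apply Subset.antisymm
    · rintro x ⟨⟨p, hp, rfl⟩, ⟨q, hq, hqp⟩⟩
      have h1 := hS1 p hp q hq hqp.symm
      have h2 : p = q := hinj h1 (show f q ∉ S from hqp.symm ▸ h1) hqp.symm
      subst h2
      exact ⟨p, ⟨hp, hq⟩, rfl⟩
    · exact image_inter_subset f P Q
  refine ⟨f '' P, f '' Q, hcl P hP, hcl Q hQ, ?_, ?_, ?_, ?_⟩
  · rw [← image_union, hPQ, image_preimage_eq_inter_range]
    exact inter_eq_left.2 hLr
  · rw [Set.disjoint_left]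
    rintro x hx ⟨q, hq, rfl⟩
    exact hAQ (show f q ∈ A' from Or.inl hx) hq
  · rw [Set.disjoint_left]
    rintro x hx ⟨p, hp, rfl⟩
    exact hCP hx hp
  · rw [himg]
    rcases hd with hd | ⟨γ, hγ, hd⟩
    · left; rw [hd, image_empty]
    · right
      refine ⟨γ, hγ, (dle_image f hf (hP.inter hQ) ?_).1 hd⟩
      refine hinj.mono ?_
      intro p hp
      exact hS1 p hp.1 p hp.2 rfl

end Pool.Agent.TH627.UT
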