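import Pool.Agent.TH627.UT.LemmaB

set_option autoImplicit false

open Set Topology Filter

universe u v

namespace Pool.Agent.TH627.UT

theorem isCompact_levels {M : Type u} [TopologicalSpace M] {B : Set M} {K : ℕ → Set M}
    (hB : IsCompact B) (hK : ∀ j, IsCompact (K j))
    (h : ∀ O, IsOpen O → B ⊆ O → ∃ J, ∀ j ≥ J, K j ⊆ O) : IsCompact (B ∪ ⋃ j, K j) := by
  classical
  refine isCompact_of_finite_subcover ?_
  intro ι U hU hcov
  obtain ⟨t, ht⟩ := hB.elim_finite_subcover U hU (subset_union_left.trans hcov)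
  obtain ⟨J, hJ⟩ := h (⋃ i ∈ t, U i) (isOpen_biUnion fun i _ => hU i) ht
  have hc : IsCompact (⋃ j ∈ Finset.range J, K j) := (Finset.range J).isCompact_biUnion fun j _ => hK j
  obtain ⟨t', ht'⟩ := hc.elim_finite_subcover U hU
    ((iUnion₂_subset fun j _ => subset_iUnion K j).trans (subset_union_right.trans hcov))
  refine ⟨t ∪ t', ?_⟩
  rintro x (hx | hx)
  · obtain ⟨i, hi, hxi⟩ := mem_iUnion₂.1 (ht hx)
    exact mem_iUnion₂.2 ⟨i, Finset.mem_union_left _ hi, hxi⟩
  · obtain ⟨j, hj⟩ := mem_iUnion.1 hx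
    by_cases hjJ : J ≤ j
    · obtain ⟨i, hi, hxi⟩ := mem_iUnion₂.1 (hJ j hjJ hj)
      exact mem_iUnion₂.2 ⟨i, Finset.mem_union_left _ hi, hxi⟩
    · obtain ⟨i, hi, hxi⟩ := mem_iUnion₂.1 (ht' (mem_iUnion₂.2 ⟨j, Finset.mem_range.2 (not_le.1 hjJ), hj⟩))
      exact mem_iUnion₂.2 ⟨i, Finset.mem_union_right _ hi, hxi⟩

/-- The ambient normed space. -/
abbrev E : Type := BoundedContinuousFunction ℕ ℝ

/-- Data for the construction of a sequence of spaces converging to a cube. -/
structure SD (s : ℕ) where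
  Φ : ℕ → Type
  inst : ∀ j, TopologicalSpace (Φ j)
  cpt : ∀ j, CompactSpace (Φ j)
  κ : ∀ j, Φ j → E
  κc : ∀ j, Continuous (κ j)
  κi : ∀ j, Function.Injective (κ j)
  κn : ∀ j y, ‖κ j y‖ ≤ (1 / 2) ^ j
  φ : ℕ → (Fin s → unitInterval) → ℝ
  φc : ∀ j, Continuous (φ j)
  φb : ∀ j x, |φ j x| ≤ 1

attribute [instance] SD.inst SD.cpt

namespace SD

variable {s : ℕ} (D : SD s)

/-- The points of level `j`. -/
noncomputable def pt (j : ℕ) (w : (Fin s → unitInterval) × D.Φ j) :
    (Fin s → unitInterval) × (ℝ × E) :=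
  (w.1, ((1 / 2) ^ j, D.φ j w.1 • D.κ j w.2))

theorem continuous_pt (j : ℕ) : Continuous (D.pt j) := by
  unfold pt
  exact continuous_fst.prodMk (continuous_const.prodMk
    (((D.φc j).comp continuous_fst).smul ((D.κc j).comp continuous_snd)))

/-- The underlying set. -/
def set : Set ((Fin s → unitInterval) × (ℝ × E)) :=
  {q | q.2 = 0} ∪ ⋃ j, range (D.pt j)

theorem isCompact_set : IsCompact D.set := by
  have hB : IsCompact {q : (Fin s → unitInterval) × (ℝ × E) | q.2 = 0} := by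
    have : {q : (Fin s → unitInterval) × (ℝ × E) | q.2 = 0} = univ ×ˢ {0} := by
      ext q; simp
    rw [this]
    exact isCompact_univ.prod isCompact_singleton
  refine isCompact_levels hB (fun j => isCompact_range (D.continuous_pt j)) ?_
  intro O hO hBO
  obtain ⟨ε, hε, hth⟩ := hB.exists_thickening_subset_open hO hBO
  obtain ⟨J, hJ⟩ := exists_pow_lt_of_lt_one hε (show (1 : ℝ) / 2 < 1 by norm_num)
  refine ⟨J, fun j hj => ?_⟩
  rintro q ⟨w, rfl⟩
  apply hth
  rw [Metric.mem_thickening_iff]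
  refine ⟨(w.1, 0), rfl, ?_⟩
  have hp : ((1 : ℝ) / 2) ^ j < ε :=
    (pow_le_pow_of_le_one (by norm_num) (by norm_num) hj).trans_lt hJ
  unfold pt
  rw [Prod.dist_eq, Prod.dist_eq]
  simp only [dist_self, Prod.fst_zero, Prod.snd_zero, dist_zero_right]
  refine max_lt hε (max_lt ?_ ?_)
  · rw [Real.norm_eq_abs, abs_of_pos (by positivity)]
    exact hp
  · refine lt_of_le_of_lt ?_ hp
    rw [norm_smul]
    calc ‖D.φ j w.1‖ * ‖D.κ j w.2‖ ≤ 1 * (1 / 2) ^ j :=
          mul_le_mul (D.φb j w.1) (D.κn j w.2) (norm_nonneg _) zero_le_one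
      _ = (1 / 2) ^ j := one_mul _

/-- The space. -/
abbrev X : Type := D.set

instance : CompactSpace D.X := isCompact_iff_compactSpace.1 D.isCompact_set

/-- The projection. -/
def π (q : D.X) : Fin s → unitInterval := q.1.1

theorem continuous_π : Continuous D.π := continuous_fst.comp continuous_subtype_val

/-- The levels. -/
def lev (j : ℕ) : Set D.X := {q | q.1.2.1 = (1 / 2) ^ j}

/-- The map onto the `j`-th level. -/
noncomputable def f (j : ℕ) (w : (Fin s → unitInterval) × D.Φ j) : D.X :=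
  ⟨D.pt j w, Or.inr (mem_iUnion.2 ⟨j, mem_range_self w⟩)⟩

theorem continuous_f (j : ℕ) : Continuous (D.f j) := (D.continuous_pt j).subtype_mk _

theorem π_f (j : ℕ) (w : (Fin s → unitInterval) × D.Φ j) : D.π (D.f j w) = w.1 := rfl

theorem f_mem_lev (j : ℕ) (w : (Fin s → unitInterval) × D.Φ j) : D.f j w ∈ D.lev j := rfl

theorem half_inj {i j : ℕ} (h : ((1 : ℝ) / 2) ^ i = (1 / 2) ^ j) : i = j :=
  (pow_right_injective₀ (by norm_num : (0 : ℝ) < 1 / 2) (by norm_num)) h

theorem lev_subset_range (j : ℕ) : D.lev j ⊆ range (D.f j) := by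
  rintro ⟨q, hq⟩ hl
  change q.2.1 = (1 / 2) ^ j at hl
  rcases hq with hq | hq
  · exfalso
    have h0 : q.2 = 0 := hq
    rw [h0] at hl
    have : (0 : ℝ) < (1 / 2) ^ j := by positivity
    rw [← hl] at this
    exact lt_irrefl _ this
  · obtain ⟨i, w, rfl⟩ := mem_iUnion.1 hq
    have : i = j := half_inj hl
    subst this
    exact ⟨w, rfl⟩

theorem isClopen_lev (j : ℕ) : IsClopen (D.lev j) := by
  have hc : Continuous fun q : D.X => q.1.2.1 :=
    continuous_fst.comp (continuous_snd.comp continuous_subtype_val)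
  refine ⟨isClosed_eq hc continuous_const, ?_⟩
  have : D.lev j = {q : D.X | (1 / 2) ^ (j + 1) < q.1.2.1} ∩ {q : D.X | q.1.2.1 < 2 * (1 / 2) ^ j} := by
    ext ⟨q, hq⟩
    constructor
    · intro hl
      change q.2.1 = (1 / 2) ^ j at hl
      have : (0 : ℝ) < (1 / 2) ^ j := by positivity
      constructor
      · show (1 / 2) ^ (j + 1) < q.2.1
        rw [hl, pow_succ]; linarith
      · show q.2.1 < 2 * (1 / 2) ^ j
        rw [hl]; linarith
    · rintro ⟨h1, h2⟩
      change (1 / 2) ^ (j + 1) < q.2.1 at h1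
      change q.2.1 < 2 * (1 / 2) ^ j at h2
      show q.2.1 = (1 / 2) ^ j
      rcases hq with hq | hq
      · exfalso
        have h0 : q.2 = 0 := hq
        rw [h0] at h1
        have : (0 : ℝ) < (1 / 2) ^ (j + 1) := by positivity
        exact lt_irrefl _ (h1.trans this)
      · obtain ⟨i, w, rfl⟩ := mem_iUnion.1 hq
        change (1 / 2) ^ (j + 1) < ((1 : ℝ) / 2) ^ i at h1
        change ((1 : ℝ) / 2) ^ i < 2 * (1 / 2) ^ j at h2
        show ((1 : ℝ) / 2) ^ i = (1 / 2) ^ j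
        have h3 : i < j + 1 := (pow_lt_pow_iff_right_of_lt_one₀ (by norm_num) (by norm_num)).1 h1
        have h4 : ((1 : ℝ) / 2) ^ (i + 1) < (1 / 2) ^ j := by rw [pow_succ]; linarith
        have h5 : j < i + 1 := (pow_lt_pow_iff_right_of_lt_one₀ (by norm_num) (by norm_num)).1 h4
        have : i = j := by omega
        rw [this]
  rw [this]
  exact (isOpen_lt continuous_const hc).inter (isOpen_lt hc continuous_const)

theorem eq_zero_of_notMem_lev {q : D.X} (h : ∀ j, q ∉ D.lev j) : q.1.2 = 0 := by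
  obtain ⟨q, hq⟩ := q
  rcases hq with hq | hq
  · exact hq
  · obtain ⟨i, w, rfl⟩ := mem_iUnion.1 hq
    exact absurd rfl (h i)

theorem inj_off_lev {q q' : D.X} (h : ∀ j, q ∉ D.lev j) (h' : ∀ j, q' ∉ D.lev j)
    (hp : D.π q = D.π q') : q = q' := by
  apply Subtype.ext
  exact Prod.ext hp ((D.eq_zero_of_notMem_lev h).trans (D.eq_zero_of_notMem_lev h').symm)

theorem f_injOn (j : ℕ) {w w' : (Fin s → unitInterval) × D.Φ j} (h : D.f j w = D.f j w')
    (h0 : D.φ j w.1 ≠ 0) : w = w' := by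
  have h1 : D.pt j w = D.pt j w' := congrArg Subtype.val h
  unfold pt at h1
  rw [Prod.mk.injEq, Prod.mk.injEq] at h1
  obtain ⟨h1, _, h2⟩ := h1
  rw [← h1] at h2
  have h3 := smul_right_injective E h0 h2
  exact Prod.ext h1 (D.κi j h3)

/-- the base point over `x` -/
def base (x : Fin s → unitInterval) : D.X := ⟨(x, 0), Or.inl rfl⟩

end SD

end Pool.Agent.TH627.UT
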