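import Pool.Agent.TH627.UT.Basic

set_option autoImplicit false

open Set Topology

universe u v

namespace Pool.Agent.TH627.UT

/-- `TrIndLE α X` says `trInd X ≤ α` (large transfinite dimension, `α ≥ 0` an ordinal):
for every closed `A` and every open `V ⊇ A` there is an open `U` with `A ⊆ U ⊆ V` such that the
boundary of `U` is empty (i.e. has `trInd = -1`) or has `trInd ≤ β` for some ordinal `β < α`. -/
def TrIndLE (α : Ordinal.{0}) (X : Type u) [TopologicalSpace X] : Prop :=
  ∀ A V : Set X, IsClosed A → IsOpen V → A ⊆ V →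
    ∃ U : Set X, IsOpen U ∧ A ⊆ U ∧ U ⊆ V ∧
      (frontier U = ∅ ∨ ∃ β : Ordinal.{0}, ∃ _ : β < α, TrIndLE β (frontier U))
termination_by α

theorem trIndLE_iff_dle {X : Type v} [TopologicalSpace X] [NormalSpace X] {α : Ordinal.{0}} :
    ∀ {Y : Type u} [TopologicalSpace Y] {e : Y → X}, IsClosedEmbedding e →
      (TrIndLE α Y ↔ Dle α (range e)) := by
  induction α using WellFoundedLT.induction with
  | ind α ih =>
  intro Y _ e he
  have hN : NormalSpace Y := he.normalSpace
  constructor
  · intro hT
    rw [TrIndLE] at hT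
    rw [dle_iff]
    intro A C hA hC hAS hCS hAC
    obtain ⟨W, hW, hAW, hWC⟩ := normal_exists_closure_subset (s := e ⁻¹' A) (t := (e ⁻¹' C)ᶜ)
      (hA.preimage he.continuous) (hC.preimage he.continuous).isOpen_compl (by
        intro y hy hy'
        exact (Set.disjoint_left.1 hAC) hy hy')
    obtain ⟨U, hU, hAU, hUW, hfr⟩ := hT (e ⁻¹' A) W (hA.preimage he.continuous) hW hAW
    refine ⟨e '' closure U, e '' Uᶜ, he.isClosedMap _ isClosed_closure,
      he.isClosedMap _ hU.isClosed_compl, ?_, ?_, ?_, ?_⟩
    · rw [← image_union, ← image_univ]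
      congr 1
      rw [eq_univ_iff_forall]
      intro y
      by_cases hy : y ∈ U
      · exact Or.inl (subset_closure hy)
      · exact Or.inr hy
    · rw [Set.disjoint_left]
      rintro x hx ⟨y, hy, rfl⟩
      exact hy (hAU hx)
    · rw [Set.disjoint_left]
      rintro x hx ⟨y, hy, rfl⟩
      exact hWC (closure_mono hUW hy) hx
    · have e1 : e '' closure U ∩ e '' Uᶜ = e '' frontier U := by
        rw [← image_inter he.injective, hU.frontier_eq]
        rfl
      rw [e1]
      rcases hfr with hfr | ⟨β, hβ, hfr⟩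
      · left; rw [hfr, image_empty]
      · right
        refine ⟨β, hβ, ?_⟩
        have he2 : IsClosedEmbedding (fun y : frontier U => e y) :=
          he.comp isClosed_frontier.isClosedEmbedding_subtypeVal
        have := (ih β hβ he2).1 hfr
        have e3 : range (fun y : frontier U => e y) = e '' frontier U := by
          ext x
          constructor
          · rintro ⟨y, rfl⟩
            exact ⟨y, y.2, rfl⟩
          · rintro ⟨y, hy, rfl⟩
            exact ⟨⟨y, hy⟩, rfl⟩
        rwa [e3] at this
  · intro hD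
    rw [TrIndLE]
    rw [dle_iff] at hD
    intro A V hA hV hAV
    obtain ⟨P, Q, hP, hQ, hPQ, hAQ, hCP, hd⟩ := hD (e '' A) (e '' Vᶜ) (he.isClosedMap _ hA)
      (he.isClosedMap _ hV.isClosed_compl) (image_subset_range _ _) (image_subset_range _ _) (by
        rw [Set.disjoint_left]
        rintro x ⟨a, ha, rfl⟩ ⟨c, hc, hac⟩
        have := he.injective hac
        subst this
        exact hc (hAV ha))
    rw [Set.disjoint_left] at hAQ hCP
    have hUo : IsOpen (e ⁻¹' Qᶜ) := hQ.isOpen_compl.preimage he.continuous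
    have hUP : e ⁻¹' Qᶜ ⊆ e ⁻¹' P := by
      intro y hy
      have : e y ∈ P ∪ Q := by rw [hPQ]; exact mem_range_self y
      rcases this with h | h
      · exact h
      · exact absurd h hy
    have hfr : frontier (e ⁻¹' Qᶜ) ⊆ e ⁻¹' (P ∩ Q) := by
      rw [hUo.frontier_eq]
      rintro y ⟨h1, h2⟩
      refine ⟨(closure_minimal hUP (hP.preimage he.continuous)) h1, ?_⟩
      by_contra h3
      exact h2 h3
    refine ⟨e ⁻¹' Qᶜ, hUo, ?_, ?_, ?_⟩
    · intro y hy h
      exact hAQ ⟨y, hy, rfl⟩ h
    · intro y hy
      by_contra hyV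
      exact hCP ⟨y, hyV, rfl⟩ (hUP hy)
    · rcases hd with hd | ⟨β, hβ, hd⟩
      · left
        rw [hd] at hfr
        simpa using hfr
      · right
        refine ⟨β, hβ, ?_⟩
        have he2 : IsClosedEmbedding (fun y : frontier (e ⁻¹' Qᶜ) => e y) :=
          he.comp isClosed_frontier.isClosedEmbedding_subtypeVal
        refine (ih β hβ he2).2 (hd.mono he2.isClosed_range ?_)
        rintro x ⟨y, rfl⟩
        exact hfr y.2

theorem trIndLE_iff_univ {X : Type u} [TopologicalSpace X] [NormalSpace X] {α : Ordinal.{0}} :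
    TrIndLE α X ↔ Dle α (univ : Set X) := by
  have := trIndLE_iff_dle (α := α) (IsClosedEmbedding.id (X := X))
  rwa [range_id] at this

end Pool.Agent.TH627.UT
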